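import Pool.Agent.Work.MP_1ce445_pln.Interface
import Pool.Agent.Work.MP_1ce445_plt.UPP

/-!
Block UP3 (MP_1ce445_co, second order term in the plateaus up to nearly their ends, upper half).
-/

namespace Pool.Agent.Work.MP_1ce445_pln

open Finset Pool.Agent.Work.MP_1ce445_co_56 Pool.Agent.Work.MP_1ce445_lin
  Pool.Agent.Work.MP_1ce445_fx Pool.Agent.Work.MP_1ce445_stm Pool.Agent.Work.MP_1ce445_plt

/-- the numbers: `k/n` is bounded away from 1 -/
lemma UP3_kap {M : ℕ} (hM : 2 ≤ M) {κ : ℝ} (h : κ ≤ cend M) :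
    (M : ℝ) * κ - ((M : ℝ) - 1) ≤ 2 / 3 := by
  have hM2 : (2 : ℝ) ≤ M := by exact_mod_cast hM
  have hM0 : (0 : ℝ) < M := by linarith
  have h2 : κ ≤ 1 - 1 / ((M : ℝ) + 1) := by
    refine h.trans ?_
    unfold cend
    have : 0 ≤ 1 / (4 * (M : ℝ) ^ 4) := by positivity
    linarith
  have h3 := mul_le_mul_of_nonneg_left h2 hM0.le
  have h4 : (M : ℝ) * (1 - 1 / ((M : ℝ) + 1)) = M - M / ((M : ℝ) + 1) := by ring
  have h5 : (1 : ℝ) / 3 ≤ M / ((M : ℝ) + 1) := by
    rw [div_le_div_iff₀ (by norm_num) (by positivity)]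
    linarith
  rw [h4] at h3
  linarith

lemma UP3_small (hPRR : Pool.Agent.Work.MP_1ce445_stm.Stmt_PRR) (hSB : Stmt_SB3)
    (hAD : Stmt_ADP) (M : ℕ) (hM : 2 ≤ M) (ε : ℝ) (hε : 0 < ε) (hε4 : ε ≤ 1 / 4) :
    ∃ n0 : ℕ, 2 ≤ n0 ∧ ∀ n k : ℕ, n0 ≤ n → Even n → ε ≤ tau n k M →
    (k : ℝ) / n ≤ cend M →
    (P n k : ℝ) ≤ (n : ℝ) ^ (k - M) *
      (n - n / M + (1 + ε) * (Real.log n / (- Real.log (tau n k M)))) ^ M := by
  have hM2 : (2 : ℝ) ≤ M := by exact_mod_cast hM
  have hM0 : (0 : ℝ) < M := by linarith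
  obtain ⟨θ, s, hθ, hθ2, hs, hs2, nA, hA⟩ := hAD M hM (ε ^ 2 / 20) (by positivity) (by nlinarith)
  obtain ⟨nS, hS⟩ := hSB M hM θ s hθ hθ2 hs hs2
  refine ⟨max (max nA nS) (max (2 * M) ⌈Real.exp (4 * (- Real.log ε) / ε)⌉₊), ?_, ?_⟩
  · exact le_trans (by omega : 2 ≤ 2 * M) ((le_max_left _ _).trans (le_max_right _ _))
  intro n k hn hev hτ hk
  have hnA : nA ≤ n := ((le_max_left _ _).trans (le_max_left _ _)).trans hn
  have hnS : nS ≤ n := ((le_max_right _ _).trans (le_max_left _ _)).trans hn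
  have hnM : 2 * M ≤ n := ((le_max_left _ _).trans (le_max_right _ _)).trans hn
  have hnE : ⌈Real.exp (4 * (- Real.log ε) / ε)⌉₊ ≤ n :=
    ((le_max_right _ _).trans (le_max_right _ _)).trans hn
  have hn2 : 2 ≤ n := by omega
  have hnpos : 0 < n := by omega
  have hn0 : (0 : ℝ) < n := by exact_mod_cast hnpos
  have hn1 : (1 : ℝ) < n := by exact_mod_cast (by omega : 1 < n)
  have hlogn : 0 < Real.log n := Real.log_pos hn1
  have hlogE : 4 * (- Real.log ε) ≤ ε * Real.log n := by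
    have h1 : Real.exp (4 * (- Real.log ε) / ε) ≤ n := (Nat.le_ceil _).trans (by exact_mod_cast hnE)
    have h2 : 4 * (- Real.log ε) / ε ≤ Real.log n := by
      rw [Real.le_log_iff_exp_le hn0]
      exact h1
    rw [div_le_iff₀ hε] at h2
    linarith
  obtain ⟨t1, t2⟩ := UPP_tau (n := n) (k := k) (M := M) hnpos (by omega)
  have hτ23 : tau n k M ≤ 2 / 3 := by
    rw [← t2]
    exact UP3_kap hM hk
  obtain ⟨l1, l2, l3⟩ := UPP_log hε hε4 hτ hτ23
  generalize hτd : tau n k M = τ at *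
  have hτ0 : 0 < τ := by linarith
  set ℓ : ℝ := - Real.log τ with hℓ
  set ℓ' : ℝ := - Real.log (τ + ε ^ 2 / 20) with hℓ'
  have hℓ0 : 0 < ℓ := by linarith
  have hc0 : 0 < (1 - ε / 4) * ℓ := mul_pos (by linarith) hℓ0
  have hℓ'0 : 0 < ℓ' := by linarith
  set r : ℕ := ⌈Real.log n / ℓ'⌉₊ with hr
  have hr1 : 1 ≤ r := Nat.ceil_pos.2 (by positivity)
  have hr2 : Real.log n / ℓ' ≤ r := Nat.le_ceil _
  have hr3 : (r : ℝ) < Real.log n / ℓ' + 1 := Nat.ceil_lt_add_one (by positivity)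
  have hpow : (n : ℝ) * (τ + ε ^ 2 / 20) ^ r ≤ 1 := by
    apply UPP_pow hnpos (by positivity)
    rw [div_le_iff₀ hℓ'0] at hr2
    exact hr2
  have hY : 0 ≤ Real.log n / ℓ := by positivity
  have hr4 : (r : ℝ) + 1 ≤ (1 + ε) * (Real.log n / ℓ) := by
    have a1 : Real.log n / ℓ' ≤ Real.log n / ((1 - ε / 4) * ℓ) :=
      div_le_div_of_nonneg_left hlogn.le hc0 l3
    have a2 : Real.log n / ((1 - ε / 4) * ℓ) ≤ (1 + ε / 2) * (Real.log n / ℓ) := by
      rw [div_le_iff₀ hc0]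
      have a3 : (1 + ε / 2) * (Real.log n / ℓ) * ((1 - ε / 4) * ℓ) =
          ((1 + ε / 2) * (1 - ε / 4)) * Real.log n := by
        field_simp
      rw [a3]
      have a4 : 1 ≤ (1 + ε / 2) * (1 - ε / 4) := by nlinarith
      nlinarith
    have a5 : 2 ≤ ε / 2 * (Real.log n / ℓ) := by
      have a6 : ε / 2 * (Real.log n / ℓ) = (ε * Real.log n) / (2 * ℓ) := by field_simp
      rw [a6, le_div_iff₀ (by positivity)]
      linarith
    linarith
  have hnM' : (n : ℝ) / M ≤ n := div_le_self hn0.le (by linarith)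
  have hbase : 0 ≤ (n : ℝ) - n / M := by linarith
  -- `k ≥ M`
  have hkM : M ≤ k := by
    have h1 : ((M : ℝ) - 1) * n ≤ M * k := by
      have h2 : (M : ℝ) * ((k : ℝ) / n) = M * k / n := by ring
      have h3 : ((M : ℝ) - 1) ≤ M * k / n := by
        rw [← h2]
        linarith
      rw [le_div_iff₀ hn0] at h3
      exact h3
    have h4 : (2 : ℝ) * M ≤ n := by exact_mod_cast hnM
    have h5 : (M : ℝ) * M ≤ M * k := by nlinarith
    have h6 : (M : ℝ) ≤ k := le_of_mul_le_mul_left h5 hM0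
    exact_mod_cast h6
  rcases P_attained n k with h0 | ⟨G, hG, hP⟩
  · rw [h0, Nat.cast_zero]
    positivity
  · by_contra hcon
    push Not at hcon
    have hPr : (P n k : ℝ) = ∏ l, (gammaT (G l) : ℝ) := by
      rw [hP]
      push_cast
      rfl
    have hlow : (1 - 1 / (M : ℝ)) ^ M * (n : ℝ) ^ k ≤ ∏ l, (gammaT (G l) : ℝ) := by
      rw [← hPr]
      refine le_trans ?_ hcon.le
      have e1 : (1 - 1 / (M : ℝ)) ^ M * (n : ℝ) ^ k =
          (n : ℝ) ^ (k - M) * ((n : ℝ) - n / M) ^ M := by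
        have e2 : (n : ℝ) - n / M = (1 - 1 / (M : ℝ)) * n := by ring
        have e3 : (n : ℝ) ^ k = (n : ℝ) ^ (k - M) * (n : ℝ) ^ M := by
          rw [← pow_add, Nat.sub_add_cancel hkM]
        rw [e2, mul_pow, e3]
        ring
      rw [e1]
      apply mul_le_mul_of_nonneg_left _ (by positivity)
      apply pow_le_pow_left₀ hbase
      have : 0 ≤ (1 + ε) * (Real.log n / ℓ) := by positivity
      linarith
    have htt : 0 ≤ tt n k M := by
      have h1 : 0 ≤ (M : ℝ) * tt n k M / n := by rw [t1]; exact hτ0.le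
      rw [le_div_iff₀ hn0, zero_mul] at h1
      exact nonneg_of_mul_nonneg_right h1 hM0
    obtain ⟨e, hSt, hhi⟩ := hS n k hnS hev htt hk G hG hlow
    have hgs := hA n k r G e hnA hr1 hSt hhi (by rw [t1]; nlinarith)
    rw [t1] at hgs
    have hcore := UPP_core hPRR M r n k hM hnpos G e hG hSt.inj (by linarith)
    have hfin : (∏ l, (gammaT (G l) : ℝ)) ≤ (n : ℝ) ^ (k - M) *
        (n - n / M + (1 + ε) * (Real.log n / ℓ)) ^ M := by
      refine hcore.trans ?_
      apply mul_le_mul_of_nonneg_left _ (by positivity)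
      apply pow_le_pow_left₀ (by positivity)
      linarith
    rw [← hPr] at hfin
    linarith

theorem stmt_UP3 : Pool.Agent.Work.MP_1ce445_stm.Stmt_PRR → Stmt_SB3 →
    Pool.Agent.Work.MP_1ce445_plt.Stmt_ADP → Stmt_UP3 := by
  intro hPRR hSB hAD M hM ε hε
  have hM2 : (2 : ℝ) ≤ M := by exact_mod_cast hM
  obtain ⟨n0, hn02, h⟩ := UP3_small hPRR hSB hAD M hM (min ε (1 / 4)) (lt_min hε (by norm_num))
    (min_le_right _ _)
  refine ⟨n0, ?_⟩
  intro n k hn hev hτ hk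
  have h1 := h n k hn hev ((min_le_left _ _).trans hτ) hk
  refine h1.trans ?_
  have hn0 : (0 : ℝ) < n := by exact_mod_cast (by omega : 0 < n)
  have hn1 : (1 : ℝ) ≤ n := by exact_mod_cast (by omega : 1 ≤ n)
  obtain ⟨-, t2⟩ := UPP_tau (n := n) (k := k) (M := M) (by omega) (by omega)
  have hτ23 : tau n k M ≤ 2 / 3 := by
    rw [← t2]
    exact UP3_kap hM hk
  have hτ0 : 0 < tau n k M := by linarith
  have hlog : 0 ≤ - Real.log (tau n k M) := by
    have := Real.log_nonpos hτ0.le (by linarith)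
    linarith
  have hY : 0 ≤ Real.log n / (- Real.log (tau n k M)) :=
    div_nonneg (Real.log_nonneg hn1) hlog
  have hnM' : (n : ℝ) / M ≤ n := div_le_self hn0.le (by linarith)
  apply mul_le_mul_of_nonneg_left _ (by positivity)
  have hmin0 : 0 < min ε (1 / 4) := lt_min hε (by norm_num)
  apply pow_le_pow_left₀
  · have : 0 ≤ (1 + min ε (1 / 4)) * (Real.log n / (- Real.log (tau n k M))) :=
      mul_nonneg (by linarith) hY
    linarith
  · have : (1 + min ε (1 / 4)) * (Real.log n / (- Real.log (tau n k M))) ≤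
        (1 + ε) * (Real.log n / (- Real.log (tau n k M))) :=
      mul_le_mul_of_nonneg_right (by linarith [min_le_left ε (1 / 4)]) hY
    linarith

end Pool.Agent.Work.MP_1ce445_pln
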