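import Pool.Agent.Work.MP_1ce445_pln.Interface

/-! # Block FPV: the second order term on the plateau up to (nearly) its end -/

namespace Pool.Agent.Work.MP_1ce445_pln

open Finset Pool.Agent.Work.MP_1ce445_co_56 Pool.Agent.Work.MP_1ce445_lin
  Pool.Agent.Work.MP_1ce445_fx Pool.Agent.Work.MP_1ce445_stm Pool.Agent.Work.MP_1ce445_plt

lemma FPV_ratio (M : ℕ) (hM : 2 ≤ M) (x : ℝ) (h : x ≤ cend M) :
    x ≤ 1 - 1 / (2 * ((M : ℝ) + 1)) := by
  have hM' : (2 : ℝ) ≤ M := by exact_mod_cast hM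
  unfold cend at h
  have h1 : 1 / (2 * ((M : ℝ) + 1)) ≤ 1 / ((M : ℝ) + 1) := by
    apply one_div_le_one_div_of_le (by linarith)
    linarith
  have h2 : 0 ≤ 1 / (4 * (M : ℝ) ^ 4) := by positivity
  linarith

theorem stmt_FPV (h1 : Stmt_UPV) (h2 : Stmt_SLU) : Stmt_FPV := by
  intro M hM ε hε hε1
  obtain ⟨nU, hU⟩ := h1 M hM ε hε hε1
  obtain ⟨qL, hL⟩ := h2 M hM (ε / 3) (by linarith) (by linarith)
  obtain ⟨q1, hq1⟩ : ∃ q1 : ℕ, Real.exp (2 * Real.log M / ε) ≤ q1 := ⟨⌈_⌉₊, Nat.le_ceil _⟩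
  refine ⟨max nU (2 * M * max qL q1 + 1), ?_⟩
  intro n k hn hdvd hkM hk
  have hev : Even n := even_iff_two_dvd.2 ((Dvd.intro M rfl).trans hdvd)
  have hnU : nU ≤ n := le_trans (le_max_left _ _) hn
  obtain ⟨q, rfl⟩ := hdvd
  have hn2 : 2 * M * max qL q1 < 2 * M * q := lt_of_lt_of_le (Nat.lt_succ_self _)
    ((le_max_right _ _).trans hn)
  have hq : max qL q1 < q := lt_of_mul_lt_mul_left hn2 (Nat.zero_le _)
  have hqL : qL ≤ q := (le_max_left _ _).trans hq.le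
  have hqq1 : q1 ≤ q := (le_max_right _ _).trans hq.le
  have hq0 : 0 < q := lt_of_le_of_lt (Nat.zero_le _) hq
  have hM' : (2 : ℝ) ≤ M := by exact_mod_cast hM
  have hM0 : (0 : ℝ) < M := by linarith
  have hq0' : (1 : ℝ) ≤ q := by exact_mod_cast hq0
  have hncast : ((2 * M * q : ℕ) : ℝ) = 2 * M * q := by push_cast; ring
  have hnpos : (0 : ℝ) < 2 * M * q := by positivity
  -- `τ`
  have htau : tau (2 * M * q) k M = ((k : ℝ) - (2 * M - 2) * q) / (2 * q) := by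
    unfold tau
    rw [hncast]
    field_simp
  have hratio := FPV_ratio M hM ((k : ℝ) / ((2 * M * q : ℕ) : ℝ)) hk
  have hτ2 : tau (2 * M * q) k M ≤ 2 / 3 := by
    unfold tau
    have e1 : (M : ℝ) * k / ((2 * M * q : ℕ) : ℝ) = M * ((k : ℝ) / ((2 * M * q : ℕ) : ℝ)) := by
      rw [mul_div_assoc]
    rw [e1]
    have e2 : (M : ℝ) * ((k : ℝ) / ((2 * M * q : ℕ) : ℝ)) ≤ M * (1 - 1 / (2 * ((M : ℝ) + 1))) :=
      mul_le_mul_of_nonneg_left hratio hM0.le
    have e3 : 1 / 3 ≤ (M : ℝ) * (1 / (2 * ((M : ℝ) + 1))) := by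
      rw [mul_one_div, div_le_div_iff₀ (by norm_num) (by positivity)]
      linarith
    have e4 : (M : ℝ) * (1 - 1 / (2 * ((M : ℝ) + 1))) = M - M * (1 / (2 * ((M : ℝ) + 1))) := by
      ring
    linarith
  have hkq' : (2 * M - 2) * q + M ≤ k := by
    have hle : M * ((2 * M - 2) * q + M) ≤ M * k := by
      refine le_trans (le_of_eq ?_) hkM
      obtain ⟨M', rfl⟩ := Nat.exists_eq_add_of_le hM
      have e1 : 2 * (2 + M') - 2 = 2 * (M' + 1) := by omega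
      have e2 : 2 + M' - 1 = M' + 1 := by omega
      rw [e1, e2]
      ring
    exact Nat.le_of_mul_le_mul_left hle (by omega)
  obtain ⟨t, rfl⟩ := Nat.exists_eq_add_of_le ((Nat.le_add_right _ M).trans hkq')
  have hMt : M ≤ t := Nat.le_of_add_le_add_left hkq'
  have hMt' : (M : ℝ) ≤ t := by exact_mod_cast hMt
  set τ := tau (2 * M * q) ((2 * M - 2) * q + t) M with hτdef
  have ht : τ = (t : ℝ) / (2 * q) := by
    rw [htau]
    congr 1
    rw [Nat.cast_add, Nat.cast_mul, Nat.cast_sub (by omega)]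
    push_cast
    ring
  have hτpos : 0 < τ := by
    rw [ht]
    have : (0 : ℝ) < t := by linarith
    positivity
  have hτn : 1 / ((2 * M * q : ℕ) : ℝ) ≤ τ := by
    rw [ht, hncast, div_le_div_iff₀ hnpos (by linarith)]
    have h1 : (1 : ℝ) * (2 * q) ≤ t * (M * (2 * q)) := by
      have h3 : (1 : ℝ) ≤ t * M := by nlinarith
      nlinarith
    linarith
  refine ⟨?_, hU _ _ hnU hev hτn hk⟩
  have hlogτ : Real.log τ < 0 := Real.log_neg hτpos (by linarith)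
  have ht2 : (t : ℝ) = τ * (2 * q) := by
    rw [ht]
    field_simp
  have h2q : (1 : ℝ) ≤ 2 * q := by linarith
  have hlog2q : 0 ≤ Real.log (2 * q) := Real.log_nonneg h2q
  have hlogn : 0 ≤ Real.log ((2 * M * q : ℕ) : ℝ) := by
    apply Real.log_nonneg
    rw [hncast]
    nlinarith
  -- `r`
  set y := (1 - ε / 3) * Real.log (2 * q) / (- Real.log τ) with hy
  have hy0 : 0 ≤ y := div_nonneg (mul_nonneg (by linarith) hlog2q) (by linarith)
  have hr1 : ((⌊y⌋₊ : ℕ) : ℝ) ≤ y := Nat.floor_le hy0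
  have hr2 : y < ((⌊y⌋₊ : ℕ) : ℝ) + 1 := Nat.lt_floor_add_one y
  have hcond : 1 ≤ (2 * (q : ℝ)) ^ (1 - ε / 3) * ((t : ℝ) / (2 * q)) ^ (⌊y⌋₊ + 1 - 1) := by
    rw [← ht, Nat.add_sub_cancel, ← Real.exp_log (show (0 : ℝ) < 2 * q by linarith),
      ← Real.exp_mul]
    nth_rewrite 1 [← Real.exp_log hτpos]
    rw [← Real.exp_nat_mul, ← Real.exp_add]
    apply Real.one_le_exp
    have h3 : ((⌊y⌋₊ : ℕ) : ℝ) * (- Real.log τ) ≤ y * (- Real.log τ) :=
      mul_le_mul_of_nonneg_right hr1 (by linarith)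
    have h4 : y * (- Real.log τ) = (1 - ε / 3) * Real.log (2 * q) := by
      rw [hy, div_mul_cancel₀ _ (neg_pos.2 hlogτ).ne']
    nlinarith
  have hmain := hL q t (⌊y⌋₊ + 1) hqL (Nat.le_add_left _ _)
    (by
      rw [ht2]
      exact mul_le_mul_of_nonneg_right (by linarith) (by linarith)) hMt hcond
  -- comparison
  have hlogM : 0 ≤ Real.log M := Real.log_nonneg (by linarith)
  have hbig : 2 * Real.log M / ε ≤ Real.log (2 * q) := by
    rw [Real.le_log_iff_exp_le (by linarith)]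
    have : (q1 : ℝ) ≤ q := by exact_mod_cast hqq1
    linarith
  have hbig2 : 2 * Real.log M ≤ ε * Real.log (2 * q) := by
    rw [div_le_iff₀ hε] at hbig
    linarith
  have hlogn2 : Real.log ((2 * M * q : ℕ) : ℝ) = Real.log (2 * q) + Real.log M := by
    rw [hncast, ← Real.log_mul (by positivity) (by positivity)]
    congr 1
    ring
  have hcmp : (1 - ε) * (Real.log ((2 * M * q : ℕ) : ℝ) / (- Real.log τ)) ≤ y := by
    rw [hy, ← mul_div_assoc]
    apply div_le_div_of_nonneg_right _ (by linarith)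
    rw [hlogn2]
    nlinarith
  have hbase : ((2 * M * q : ℕ) : ℝ) - ((2 * M * q : ℕ) : ℝ) / M +
      (1 - ε) * (Real.log ((2 * M * q : ℕ) : ℝ) / (- Real.log τ)) ≤
        ((2 * (M - 1) * q + (⌊y⌋₊ + 1) : ℕ) : ℝ) := by
    have e1 : ((2 * (M - 1) * q + (⌊y⌋₊ + 1) : ℕ) : ℝ) =
        2 * ((M : ℝ) - 1) * q + (((⌊y⌋₊ : ℕ) : ℝ) + 1) := by
      rw [Nat.cast_add, Nat.cast_mul, Nat.cast_mul, Nat.cast_sub (by omega)]
      push_cast
      ring
    have e2 : ((2 * M * q : ℕ) : ℝ) / M = 2 * q := by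
      rw [hncast]
      field_simp
    rw [e1, e2, hncast]
    rw [hncast] at hcmp
    linarith
  have hbase0 : 0 ≤ ((2 * M * q : ℕ) : ℝ) - ((2 * M * q : ℕ) : ℝ) / M +
      (1 - ε) * (Real.log ((2 * M * q : ℕ) : ℝ) / (- Real.log τ)) := by
    have e2 : ((2 * M * q : ℕ) : ℝ) / M ≤ ((2 * M * q : ℕ) : ℝ) :=
      div_le_self (Nat.cast_nonneg _) (by linarith)
    have e3 : 0 ≤ (1 - ε) * (Real.log ((2 * M * q : ℕ) : ℝ) / (- Real.log τ)) :=
      mul_nonneg (by linarith) (div_nonneg hlogn (by linarith))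
    linarith
  calc ((2 * M * q : ℕ) : ℝ) ^ ((2 * M - 2) * q + t - M) *
      (((2 * M * q : ℕ) : ℝ) - ((2 * M * q : ℕ) : ℝ) / M +
        (1 - ε) * (Real.log ((2 * M * q : ℕ) : ℝ) / (- Real.log τ))) ^ M ≤
      ((2 * M * q : ℕ) : ℝ) ^ ((2 * M - 2) * q + t - M) *
        ((2 * (M - 1) * q + (⌊y⌋₊ + 1) : ℕ) : ℝ) ^ M :=
        mul_le_mul_of_nonneg_left (pow_le_pow_left₀ hbase0 hbase M) (by positivity)
    _ = (((2 * M * q) ^ ((2 * M - 2) * q + t - M) *
        (2 * (M - 1) * q + (⌊y⌋₊ + 1)) ^ M : ℕ) : ℝ) := by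
        simp only [Nat.cast_mul, Nat.cast_pow]
    _ ≤ (P (2 * M * q) ((2 * M - 2) * q + t) : ℝ) := by exact_mod_cast hmain

end Pool.Agent.Work.MP_1ce445_pln
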