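import Pool.Agent.Work.MP_1ce445_pln.Interface
import Pool.Agent.Work.MP_1ce445_plt.Final

/-!
PLV: the plateau theorem up to (nearly) the end of the plateau, from FPV, FIR and FI2 (helper72). Copy of `stmt_PLA`.
-/

namespace Pool.Agent.Work.MP_1ce445_pln

open Finset Pool.Agent.Work.MP_1ce445_co_56 Pool.Agent.Work.MP_1ce445_lin
  Pool.Agent.Work.MP_1ce445_fx Pool.Agent.Work.MP_1ce445_stm Pool.Agent.Work.MP_1ce445_plt

theorem stmt_PLV (hF : Stmt_FPV) (hR : Stmt_FIR) (h2 : Stmt_FI2) : Stmt_PLV := by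
  intro M r hM hr ε hε hε1
  obtain ⟨n1, hF⟩ := hF M hM ε hε hε1
  obtain ⟨C, δ, q0, hδ, hE⟩ := PLA_exact hR h2 M r hM hr
  have hM0 : (0 : ℝ) < M := by
    have : 0 < M := by omega
    exact_mod_cast this
  have hM2 : (2 : ℝ) ≤ M := by exact_mod_cast hM
  refine ⟨C, δ, n1 + 2 * M * (q0 + 1), hδ, ?_⟩
  intro n k hn hd hk hc
  have hn1 : n1 ≤ n := by omega
  have hnpos : 0 < n := by
    have : 0 < 2 * M * (q0 + 1) := by positivity
    omega
  have hn0 : (0 : ℝ) < n := by exact_mod_cast hnpos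
  obtain ⟨hlo, hup⟩ := hF n k hn1 hd hk hc
  obtain ⟨q, t, hnq, hkq, hMt, hq, hτ⟩ := PLA_data M n k hM hnpos hd hk
  have hq' : (0 : ℝ) < q := by exact_mod_cast hq
  have hMk : M ≤ k := by omega
  -- `k < n`
  have hkn : k < n := by
    by_contra hcon
    push Not at hcon
    have h1 : (1 : ℝ) ≤ (k : ℝ) / n := by
      rw [le_div_iff₀ hn0, one_mul]
      exact_mod_cast hcon
    have h2 : 0 < 1 / ((M : ℝ) + 1) := by positivity
    have h3 : 0 < 1 / (4 * (M : ℝ) ^ 4) := by positivity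
    unfold cend at hc
    linarith
  have ht2q : t < 2 * q := by
    obtain ⟨m, rfl⟩ : ∃ m, M = m + 1 := ⟨M - 1, by omega⟩
    have h1 : 2 * (m + 1) - 2 = 2 * m := by omega
    rw [h1] at hkq
    rw [hkq, hnq] at hkn
    have h2 : 2 * (m + 1) * q = 2 * m * q + 2 * q := by ring
    omega
  have ht0 : (0 : ℝ) < t := by
    have : 0 < t := by omega
    exact_mod_cast this
  have hτ0 : 0 < tau n k M := by rw [hτ]; positivity
  have hτ1 : tau n k M < 1 := by
    rw [hτ, div_lt_one (by positivity)]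
    exact_mod_cast ht2q
  have hL : 0 < - Real.log (tau n k M) := by
    have := Real.log_neg hτ0 hτ1
    linarith
  set ρ : ℝ := Real.log n / (- Real.log (tau n k M)) with hρ
  have hρ0 : 0 ≤ ρ := div_nonneg (Real.log_natCast_nonneg n) hL.le
  have hB0 : (0 : ℝ) ≤ n - n / M := by
    rw [sub_nonneg, div_le_iff₀ hM0]
    nlinarith
  have hpk : (0 : ℝ) < (n : ℝ) ^ (k - M) := by positivity
  set X : ℝ := (P n k : ℝ) / (n : ℝ) ^ (k - M) with hX
  have hX0 : 0 ≤ X := by positivity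
  have hPX : (P n k : ℝ) = (n : ℝ) ^ (k - M) * X := by
    rw [hX]; field_simp
  have hMne : M ≠ 0 := by omega
  set Y : ℝ := X ^ ((M : ℝ)⁻¹) with hY
  have hY0 : 0 ≤ Y := Real.rpow_nonneg hX0 _
  have hYM : Y ^ M = X := Real.rpow_inv_natCast_pow hX0 hMne
  have hlo' : (n - n / M + (1 - ε) * ρ) ≤ Y := by
    have h1 : (n - n / M + (1 - ε) * ρ) ^ M ≤ Y ^ M := by
      rw [hYM]
      rw [hPX] at hlo
      exact le_of_mul_le_mul_left hlo hpk
    exact le_of_pow_le_pow_left₀ hMne hY0 h1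
  have hup' : Y ≤ (n - n / M + (1 + ε) * ρ + 1) := by
    have h1 : Y ^ M ≤ (n - n / M + (1 + ε) * ρ + 1) ^ M := by
      rw [hYM]
      rw [hPX] at hup
      exact le_of_mul_le_mul_left hup hpk
    have h2 : 0 ≤ (1 + ε) * ρ := by positivity
    exact le_of_pow_le_pow_left₀ hMne (by linarith) h1
  have hε' : 0 ≤ (1 - ε) * ρ := mul_nonneg (by linarith) hρ0
  refine ⟨Y - (n - n / M), by linarith, ?_, by linarith, by linarith, ?_⟩
  · have h1 : (n : ℝ) - n / M + (Y - (n - n / M)) = Y := by ring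
    rw [h1, hYM]
    exact hPX
  · intro h3 h4
    have hq0 : q0 ≤ q := by
      have h5 : 2 * M * (q0 + 1) ≤ 2 * M * q := by omega
      have h6 : q0 + 1 ≤ q := Nat.le_of_mul_le_mul_left h5 (by omega)
      omega
    have hnr : (n : ℝ) = 2 * M * q := by rw [hnq]; push_cast; ring
    rw [hτ, hnr] at h3 h4
    have h7 := hE q t hq0 hq hMt h3 h4
    rw [← hnq, ← hkq] at h7
    have h8 : (P n k : ℝ) = (n : ℝ) ^ (k - M) * (n - n / M + r) ^ M := by
      rw [h7]
      push_cast [Nat.cast_sub (show 1 ≤ M by omega)]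
      rw [hnr]
      have h9 : 2 * ((M : ℝ) - 1) * q = 2 * M * q - 2 * M * q / M := by
        field_simp
      rw [h9]
    have h10 : (n - n / M + r : ℝ) ^ M = Y ^ M := by
      rw [hYM]
      rw [hPX] at h8
      exact (mul_left_cancel₀ hpk.ne' h8).symm
    have h11 : (n : ℝ) - n / M + r = Y :=
      (pow_left_inj₀ (by positivity) hY0 hMne).1 h10
    linarith

end Pool.Agent.Work.MP_1ce445_pln
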