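import Pool.Agent.Work.MP_1ce445_pln.Interface

/-!
THE PLATEAUS of MP_1ce445_co up to their ends, block PWM: margin in the inequality
`(1 - 1/(M+1))^(M+2) < (1 - 1/M)^M`.
-/

namespace Pool.Agent.Work.MP_1ce445_pln

open Finset Pool.Agent.Work.MP_1ce445_co_56 Pool.Agent.Work.MP_1ce445_lin
  Pool.Agent.Work.MP_1ce445_fx Pool.Agent.Work.MP_1ce445_stm Pool.Agent.Work.MP_1ce445_plt

lemma PWM_top (m : ℕ) (hm : 2 ≤ m) :
    ((m : ℝ) / ((m : ℝ) + 1)) ^ (m + 2) < (1 - 1 / (m : ℝ)) ^ m := by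
  have h2 : (2 : ℝ) ≤ m := by exact_mod_cast hm
  have h0 : (0 : ℝ) < m := by linarith
  have hs : (0 : ℝ) < (m : ℝ) ^ 2 - 1 := by nlinarith
  have hs' : (m : ℝ) ^ 2 - 1 ≠ 0 := hs.ne'
  have hb : (0 : ℝ) < 1 - 1 / (m : ℝ) := by
    rw [sub_pos, div_lt_one h0]; linarith
  have e1 : (m : ℝ) / ((m : ℝ) + 1) = (1 - 1 / (m : ℝ)) * (1 + 1 / ((m : ℝ) ^ 2 - 1)) := by
    field_simp
    ring
  have h3 : (1 + 1 / ((m : ℝ) ^ 2 - 1)) ^ m < Real.exp (2 / ((m : ℝ) + 1)) := by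
    have h4 : 1 + 1 / ((m : ℝ) ^ 2 - 1) < Real.exp (1 / ((m : ℝ) ^ 2 - 1)) := by
      have := Real.add_one_lt_exp (x := 1 / ((m : ℝ) ^ 2 - 1)) (by positivity)
      linarith
    have h5 : (0 : ℝ) ≤ 1 + 1 / ((m : ℝ) ^ 2 - 1) := by positivity
    refine (pow_lt_pow_left₀ h4 h5 (by omega)).trans_le ?_
    rw [← Real.exp_nat_mul]
    refine Real.exp_le_exp.2 ?_
    rw [mul_one_div, div_le_div_iff₀ hs (by linarith)]
    nlinarith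
  have h6 : Real.exp (2 / ((m : ℝ) + 1)) * ((m : ℝ) / ((m : ℝ) + 1)) ^ 2 ≤ 1 := by
    have h7 : (m : ℝ) / ((m : ℝ) + 1) ≤ Real.exp (-(1 / ((m : ℝ) + 1))) := by
      have h8 := Real.add_one_le_exp (-(1 / ((m : ℝ) + 1)))
      have h9 : (m : ℝ) / ((m : ℝ) + 1) = -(1 / ((m : ℝ) + 1)) + 1 := by
        field_simp
        ring
      rw [h9]; exact h8
    have h10 : ((m : ℝ) / ((m : ℝ) + 1)) ^ 2 ≤ Real.exp (-(1 / ((m : ℝ) + 1))) ^ 2 :=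
      pow_le_pow_left₀ (by positivity) h7 2
    calc Real.exp (2 / ((m : ℝ) + 1)) * ((m : ℝ) / ((m : ℝ) + 1)) ^ 2
        ≤ Real.exp (2 / ((m : ℝ) + 1)) * Real.exp (-(1 / ((m : ℝ) + 1))) ^ 2 :=
          mul_le_mul_of_nonneg_left h10 (Real.exp_pos _).le
      _ = 1 := by
        rw [← Real.exp_nat_mul, ← Real.exp_add]
        have : 2 / ((m : ℝ) + 1) + ((2 : ℕ) : ℝ) * -(1 / ((m : ℝ) + 1)) = 0 := by
          push_cast
          ring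
        rw [this, Real.exp_zero]
  have h11 : (0 : ℝ) < ((m : ℝ) / ((m : ℝ) + 1)) ^ 2 := by positivity
  have h12 : (0 : ℝ) < (1 - 1 / (m : ℝ)) ^ m := pow_pos hb m
  calc ((m : ℝ) / ((m : ℝ) + 1)) ^ (m + 2)
      = ((m : ℝ) / ((m : ℝ) + 1)) ^ m * ((m : ℝ) / ((m : ℝ) + 1)) ^ 2 := pow_add _ _ _
    _ = (1 - 1 / (m : ℝ)) ^ m * ((1 + 1 / ((m : ℝ) ^ 2 - 1)) ^ m * ((m : ℝ) / ((m : ℝ) + 1)) ^ 2) := by
        rw [← mul_assoc, ← mul_pow, ← e1]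
    _ < (1 - 1 / (m : ℝ)) ^ m * (Real.exp (2 / ((m : ℝ) + 1)) * ((m : ℝ) / ((m : ℝ) + 1)) ^ 2) :=
        mul_lt_mul_of_pos_left (mul_lt_mul_of_pos_right h3 h11) h12
    _ ≤ (1 - 1 / (m : ℝ)) ^ m * 1 := mul_le_mul_of_nonneg_left h6 h12.le
    _ = (1 - 1 / (m : ℝ)) ^ m := mul_one _

theorem stmt_PWM : Stmt_PWM := by
  intro M hM
  have hcont : Continuous (fun e : ℝ => (1 - 1 / ((M : ℝ) + 1) + e) ^ (M + 2) + e) := by
    fun_prop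
  have hM0 : (0 : ℝ) < (M : ℝ) + 1 := by positivity
  have e1 : 1 - 1 / ((M : ℝ) + 1) = (M : ℝ) / ((M : ℝ) + 1) := by
    field_simp
    ring
  have hlt : (fun e : ℝ => (1 - 1 / ((M : ℝ) + 1) + e) ^ (M + 2) + e) 0 <
      (1 - 1 / (M : ℝ)) ^ M := by
    show (1 - 1 / ((M : ℝ) + 1) + 0) ^ (M + 2) + 0 < (1 - 1 / (M : ℝ)) ^ M
    rw [add_zero, add_zero, e1]
    exact PWM_top M hM
  have hev := (hcont.tendsto 0).eventually_lt_const hlt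
  obtain ⟨δ, hδ, h⟩ := Metric.eventually_nhds_iff.1 hev
  refine ⟨δ / 2, by linarith, ?_⟩
  refine (h (y := δ / 2) ?_).le
  rw [Real.dist_eq, sub_zero, abs_of_pos (by linarith)]
  linarith

end Pool.Agent.Work.MP_1ce445_pln
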