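import Pool.Agent.Work.MP_1ce445_pln.Interface
import Pool.Agent.Work.MP_1ce445_upg.UPU

/-!
Block RNG of the plateaus up to their ends (helper88): the real numbers.
-/

namespace Pool.Agent.Work.MP_1ce445_pln

open Finset Pool.Agent.Work.MP_1ce445_co_56 Pool.Agent.Work.MP_1ce445_lin
  Pool.Agent.Work.MP_1ce445_fx Pool.Agent.Work.MP_1ce445_stm Pool.Agent.Work.MP_1ce445_plt

/-- `ζ` -/
noncomputable def RNG_z (m : ℝ) : ℝ := (1 - (m + 1) / (4 * m ^ 3)) / (2 * m ^ 2)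

lemma RNG_u {m : ℝ} (hm : 2 ≤ m) : 0 < (m + 1) / (4 * m ^ 3) ∧ (m + 1) / (4 * m ^ 3) ≤ 3 / 32 := by
  have h0 : 0 < m := by linarith
  refine ⟨by positivity, ?_⟩
  rw [div_le_div_iff₀ (by positivity) (by norm_num)]
  have h2 : 4 * m ≤ m ^ 3 := by nlinarith [mul_nonneg h0.le (by nlinarith : (0 : ℝ) ≤ m ^ 2 - 4)]
  linarith

lemma RNG_z_bd {m : ℝ} (hm : 2 ≤ m) : 0 < RNG_z m ∧ m * RNG_z m ≤ 1 / 4 := by
  have h0 : 0 < m := by linarith
  obtain ⟨h1, h2⟩ := RNG_u hm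
  have h3 : 0 < 1 - (m + 1) / (4 * m ^ 3) := by linarith
  refine ⟨by unfold RNG_z; positivity, ?_⟩
  unfold RNG_z
  rw [← mul_div_assoc, div_le_div_iff₀ (by positivity) (by norm_num)]
  have h4 : m * (1 - (m + 1) / (4 * m ^ 3)) ≤ m * 1 := mul_le_mul_of_nonneg_left (by linarith) h0.le
  nlinarith

lemma RNG_ww (M : ℕ) (hM : 2 ≤ M) (c : ℝ) (h1 : c ≤ cend M) :
    ww M c ≤ ((M : ℝ) - RNG_z M) / (M + 1) := by
  have hm : (2 : ℝ) ≤ M := by exact_mod_cast hM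
  unfold ww cend at *
  unfold Pool.Agent.Work.MP_1ce445_upg.Dl
  generalize (M : ℝ) = m at hm h1 ⊢
  have h0 : 0 < m := by linarith
  have hm1 : 0 < m + 1 := by linarith
  obtain ⟨hu1, hu2⟩ := RNG_u hm
  obtain ⟨hz1, hz2⟩ := RNG_z_bd hm
  set u : ℝ := (m + 1) / (4 * m ^ 3) with hu
  set e1 : ℝ := (m + 1) / (4 * m ^ 4) with he1
  have hme1 : m * e1 = u := by
    rw [he1, hu]
    field_simp
  have he0 : 0 < e1 := by
    rw [he1]
    positivity
  have hzz : (m + 1) * RNG_z m ^ 2 = e1 * (1 - u) ^ 2 := by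
    rw [he1]
    unfold RNG_z
    rw [← hu]
    field_simp
    ring
  obtain ⟨η, hη⟩ : ∃ η : ℝ, η = m - (m + 1) * c := ⟨_, rfl⟩
  have hηe : e1 ≤ η := by
    have h2 : (m + 1) * c ≤ (m + 1) * (1 - 1 / (m + 1) - 1 / (4 * m ^ 4)) :=
      mul_le_mul_of_nonneg_left h1 hm1.le
    have h3 : (m + 1) * (1 - 1 / (m + 1) - 1 / (4 * m ^ 4)) = m - e1 := by
      rw [he1]
      field_simp
      ring
    rw [hη]
    linarith
  have hc : c = (m - η) / (m + 1) := by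
    rw [hη]
    field_simp
    ring
  rw [← hη]
  rcases le_total (RNG_z m) η with h2 | h2
  · have h3 : 0 ≤ max 0 (Real.sqrt (η * (m * c - (m - 1))) - η) / (m + 1) :=
      div_nonneg (le_max_left _ _) hm1.le
    have h4 : (m - η) / (m + 1) ≤ (m - RNG_z m) / (m + 1) :=
      div_le_div_of_nonneg_right (by linarith) hm1.le
    rw [← hc] at h4
    linarith
  · have h3 : RNG_z m ≤ Real.sqrt (η * (m * c - (m - 1))) := by
      apply Real.le_sqrt_of_sq_le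
      have h4 : (m + 1) * (η * (m * c - (m - 1))) = η * (1 - m * η) := by
        rw [hc]
        field_simp
        ring
      have h5 : (m + 1) * RNG_z m ^ 2 ≤ (m + 1) * (η * (m * c - (m - 1))) := by
        rw [h4, hzz]
        have h6 : 0 ≤ (η - e1) * (1 - m * (η + e1)) := by
          refine mul_nonneg (by linarith) ?_
          have h7 : m * η ≤ m * RNG_z m := mul_le_mul_of_nonneg_left h2 h0.le
          rw [mul_add, hme1]
          linarith
        have h8 : e1 * (1 - u) ^ 2 ≤ e1 * (1 - u) :=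
          mul_le_mul_of_nonneg_left (by nlinarith) he0.le
        have h9 : e1 * (1 - u) = e1 * (1 - m * e1) := by rw [hme1]
        nlinarith
      exact le_of_mul_le_mul_left h5 hm1
    have h4 : (RNG_z m - η) / (m + 1) ≤
        max 0 (Real.sqrt (η * (m * c - (m - 1))) - η) / (m + 1) := by
      apply div_le_div_of_nonneg_right _ hm1.le
      exact (sub_le_sub_right h3 η).trans (le_max_right _ _)
    have h5 : (m - RNG_z m) / (m + 1) = (m - η) / (m + 1) - (RNG_z m - η) / (m + 1) := by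
      field_simp
      ring
    rw [← hc] at h5
    linarith

lemma RNG_rat {m : ℝ} (hm : 3 ≤ m) :
    m * ((2 * m ^ 2 - 1) / (2 * m ^ 2 * (m ^ 2 - 1))) - 2 / (2 * m + 1) -
      (m + 1) * (RNG_z m / m) < 0 := by
  obtain ⟨t, ht, rfl⟩ : ∃ t : ℝ, 0 ≤ t ∧ m = t + 3 := ⟨m - 3, by linarith, by ring⟩
  have h1 : 0 < (t + 3) ^ 2 - 1 := by nlinarith
  have h0 : 0 < t + 3 := by linarith
  have h2 : (t + 3) * ((2 * (t + 3) ^ 2 - 1) / (2 * (t + 3) ^ 2 * ((t + 3) ^ 2 - 1))) -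
      2 / (2 * (t + 3) + 1) - (t + 3 + 1) * (RNG_z (t + 3) / (t + 3)) =
      - (4 * (t + 3) ^ 6 - 2 * (t + 3) ^ 5 - 17 * (t + 3) ^ 4 - 6 * (t + 3) ^ 3 +
        4 * (t + 3) ^ 2 + 4 * (t + 3) + 1) /
        (8 * (t + 3) ^ 6 * ((t + 3) ^ 2 - 1) * (2 * (t + 3) + 1)) := by
    unfold RNG_z
    generalize t + 3 = m at h0 h1 ⊢
    have h3 : m ^ 2 - 1 ≠ 0 := h1.ne'
    field_simp
    ring
  rw [h2, neg_div, neg_lt_zero]
  refine div_pos ?_ (by positivity)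
  ring_nf
  positivity

lemma RNG_pow {M : ℕ} (hM : 3 ≤ M) :
    (((M : ℝ) - RNG_z M) / (M + 1)) ^ (M + 1) < (1 - 1 / (M : ℝ)) ^ M := by
  have hm : (3 : ℝ) ≤ M := by exact_mod_cast hM
  have h0 : (0 : ℝ) < M := by linarith
  have h1 : (0 : ℝ) < (M : ℝ) + 1 := by linarith
  obtain ⟨hz1, hz2⟩ := RNG_z_bd (m := (M : ℝ)) (by linarith)
  have hz3 : RNG_z M < M := by nlinarith
  have hw : 0 < ((M : ℝ) - RNG_z M) / (M + 1) := div_pos (by linarith) h1
  have hb : 0 < 1 - 1 / (M : ℝ) := by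
    rw [sub_pos, div_lt_one h0]
    linarith
  rw [← Real.log_lt_log_iff (by positivity) (by positivity), Real.log_pow, Real.log_pow]
  have hs : (0 : ℝ) < (M : ℝ) ^ 2 - 1 := by nlinarith
  obtain ⟨a, ha⟩ : ∃ a : ℝ, a = (M : ℝ) ^ 2 / ((M : ℝ) ^ 2 - 1) := ⟨_, rfl⟩
  have ha1 : 1 ≤ a := by
    rw [ha, le_div_iff₀ hs]
    linarith
  have ha0 : 0 < a := by linarith
  have hL : Real.log a ≤ (2 * (M : ℝ) ^ 2 - 1) / (2 * (M : ℝ) ^ 2 * ((M : ℝ) ^ 2 - 1)) := by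
    have h2 := Real.self_le_sinh_iff.2 (Real.log_nonneg ha1)
    rw [Real.sinh_log ha0] at h2
    refine h2.trans (le_of_eq ?_)
    rw [ha]
    have h3 : (M : ℝ) ^ 2 - 1 ≠ 0 := hs.ne'
    field_simp
    ring
  have hY : 2 / (2 * (M : ℝ) + 1) ≤ Real.log (1 + 1 / (M : ℝ)) := by
    have h2 := Real.le_log_one_add_of_nonneg (x := 1 / (M : ℝ)) (by positivity)
    refine le_trans (le_of_eq ?_) h2
    field_simp
    ring
  have hw1 : Real.log (((M : ℝ) - RNG_z M) / (M + 1)) ≤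
      -Real.log (1 + 1 / (M : ℝ)) - RNG_z M / M := by
    have h2 : ((M : ℝ) - RNG_z M) / (M + 1) = (1 + 1 / (M : ℝ))⁻¹ * (1 - RNG_z M / M) := by
      field_simp
    have h3 : 0 < 1 - RNG_z M / M := by
      rw [sub_pos, div_lt_one h0]
      exact hz3
    rw [h2, Real.log_mul (by positivity) h3.ne', Real.log_inv]
    have h4 := Real.log_le_sub_one_of_pos h3
    linarith
  have hb1 : Real.log (1 - 1 / (M : ℝ)) = -Real.log (1 + 1 / (M : ℝ)) - Real.log a := by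
    have h2 : 1 - 1 / (M : ℝ) = (1 + 1 / (M : ℝ))⁻¹ * a⁻¹ := by
      rw [ha]
      have h3 : (M : ℝ) ^ 2 - 1 ≠ 0 := hs.ne'
      field_simp
      ring
    rw [h2, Real.log_mul (by positivity) (by positivity), Real.log_inv, Real.log_inv]
    ring
  have hR := RNG_rat hm
  rw [hb1]
  push_cast
  have h5 : ((M : ℝ) + 1) * Real.log (((M : ℝ) - RNG_z M) / (M + 1)) ≤
      ((M : ℝ) + 1) * (-Real.log (1 + 1 / (M : ℝ)) - RNG_z M / M) :=
    mul_le_mul_of_nonneg_left hw1 h1.le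
  have h6 : (M : ℝ) * Real.log a ≤
      M * ((2 * (M : ℝ) ^ 2 - 1) / (2 * (M : ℝ) ^ 2 * ((M : ℝ) ^ 2 - 1))) :=
    mul_le_mul_of_nonneg_left hL h0.le
  linarith

lemma RNG_pow2 {M : ℕ} (hM : 2 ≤ M) :
    (((M : ℝ) - RNG_z M) / (M + 1)) ^ (M + 1) < (1 - 1 / (M : ℝ)) ^ M := by
  rcases eq_or_lt_of_le hM with rfl | h
  · unfold RNG_z
    norm_num
  · exact RNG_pow h

theorem stmt_RNG : Stmt_RNG := by
  intro M hM
  have hm : (2 : ℝ) ≤ M := by exact_mod_cast hM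
  have h0 : (0 : ℝ) < M := by linarith
  have hP := RNG_pow2 hM
  set B : ℝ := (1 - 1 / (M : ℝ)) ^ M with hB
  set w : ℝ := ((M : ℝ) - RNG_z M) / (M + 1) with hw
  have hcont : Continuous fun x : ℝ => ww M (cend M + x) ^ (M + 1) := by
    unfold ww Pool.Agent.Work.MP_1ce445_upg.Dl
    fun_prop
  have hend0 : 0 ≤ cend M := by
    unfold cend
    have h1 : 1 / ((M : ℝ) + 1) ≤ 1 / 3 := one_div_le_one_div_of_le (by norm_num) (by linarith)
    have h2 : 1 / (4 * (M : ℝ) ^ 4) ≤ 1 / 4 := by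
      apply one_div_le_one_div_of_le (by norm_num)
      have : (1 : ℝ) ≤ (M : ℝ) ^ 4 := one_le_pow₀ (by linarith)
      linarith
    linarith
  have hend1 : cend M + 1 / (4 * (M : ℝ) ^ 4) = 1 - 1 / ((M : ℝ) + 1) := by
    unfold cend
    ring
  have hq : 0 < 1 / (4 * (M : ℝ) ^ 4) := by positivity
  have hww0 : ∀ c : ℝ, 0 ≤ c → c ≤ 1 - 1 / ((M : ℝ) + 1) → 0 ≤ ww M c := fun c hc hc1 =>
    (Pool.Agent.Work.MP_1ce445_upg.UPU_Dl M hM c hc hc1).1
  have hbase : ∀ c : ℝ, 0 ≤ c → c ≤ cend M → ww M c ^ (M + 1) ≤ w ^ (M + 1) := fun c hc hc1 =>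
    pow_le_pow_left₀ (hww0 c hc (by linarith)) (RNG_ww M hM c hc1) _
  obtain ⟨δ, hδ, hδ1⟩ := Pool.Agent.Work.MP_1ce445_upg.UPU_small hcont
    (c := w ^ (M + 1) + (B - w ^ (M + 1)) / 2) (by
      simp only [add_zero]
      have := hbase (cend M) hend0 le_rfl
      linarith)
  refine ⟨min (min δ ((B - w ^ (M + 1)) / 2)) (1 / (4 * (M : ℝ) ^ 4)), ?_, ?_, ?_⟩
  · refine lt_min (lt_min hδ (by linarith)) hq
  · rw [← hend1]
    have := min_le_right (min δ ((B - w ^ (M + 1)) / 2)) (1 / (4 * (M : ℝ) ^ 4))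
    linarith
  · intro c hc hc1
    have e1 : min (min δ ((B - w ^ (M + 1)) / 2)) (1 / (4 * (M : ℝ) ^ 4)) ≤ δ :=
      (min_le_left _ _).trans (min_le_left _ _)
    have e2 : min (min δ ((B - w ^ (M + 1)) / 2)) (1 / (4 * (M : ℝ) ^ 4)) ≤
        (B - w ^ (M + 1)) / 2 := (min_le_left _ _).trans (min_le_right _ _)
    rcases le_total c (cend M) with h3 | h3
    · have := hbase c hc h3
      linarith
    · have h4 := hδ1 (c - cend M) (by linarith) (by linarith)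
      rw [add_sub_cancel] at h4
      linarith

end Pool.Agent.Work.MP_1ce445_pln
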