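import Pool.Agent.Work.MP_1ce445_pln.Interface
import Pool.Agent.Work.MP_1ce445_stm.SET

/-! # Block SE3: set systems with a product which is nearly the largest, with the case of exactly `M + 1` singletons -/

namespace Pool.Agent.Work.MP_1ce445_pln

open Finset Pool.Agent.Work.MP_1ce445_co_56 Pool.Agent.Work.MP_1ce445_lin
  Pool.Agent.Work.MP_1ce445_fx Pool.Agent.Work.MP_1ce445_stm Pool.Agent.Work.MP_1ce445_plt

/-- telescoping of products -/
theorem SE3_prod {ι : Type} (A : Finset ι) (q : ι → ℝ) (η : ℝ) (h0 : 0 ≤ η) (h1 : η ≤ 1)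
    (hq0 : ∀ x ∈ A, 0 ≤ q x) (hq1 : ∀ x ∈ A, q x ≤ 1) :
    ∏ x ∈ A, (1 - (1 - η) * q x) ≤ ∏ x ∈ A, (1 - q x) + η * ∑ x ∈ A, q x ∧
      0 ≤ ∏ x ∈ A, (1 - (1 - η) * q x) ∧ ∏ x ∈ A, (1 - (1 - η) * q x) ≤ 1 := by
  classical
  have hb : ∀ x ∈ A, 0 ≤ 1 - (1 - η) * q x ∧ 1 - (1 - η) * q x ≤ 1 := by
    intro x hx
    have h2 := hq0 x hx
    have h3 := hq1 x hx
    have h4 : (1 - η) * q x ≤ 1 * 1 := mul_le_mul (by linarith) h3 h2 (by norm_num)
    have h5 : 0 ≤ (1 - η) * q x := mul_nonneg (by linarith) h2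
    constructor <;> linarith
  refine ⟨?_, Finset.prod_nonneg (fun x hx => (hb x hx).1),
    Finset.prod_le_one (fun x hx => (hb x hx).1) (fun x hx => (hb x hx).2)⟩
  revert hq0 hq1 hb
  refine Finset.induction_on A ?_ ?_
  · intro _ _ _
    simp
  · intro a s ha ih hq0 hq1 hb
    have ih' := ih (fun x hx => hq0 x (Finset.mem_insert_of_mem hx))
      (fun x hx => hq1 x (Finset.mem_insert_of_mem hx))
      (fun x hx => hb x (Finset.mem_insert_of_mem hx))
    rw [Finset.prod_insert ha, Finset.prod_insert ha, Finset.sum_insert ha]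
    have ha0 := hq0 a (Finset.mem_insert_self a s)
    have ha1 := hq1 a (Finset.mem_insert_self a s)
    have hP : ∏ x ∈ s, (1 - (1 - η) * q x) ≤ 1 :=
      Finset.prod_le_one (fun x hx => (hb x (Finset.mem_insert_of_mem hx)).1)
        (fun x hx => (hb x (Finset.mem_insert_of_mem hx)).2)
    have hS : 0 ≤ ∑ x ∈ s, q x :=
      Finset.sum_nonneg (fun x hx => hq0 x (Finset.mem_insert_of_mem hx))
    have e1 : (1 - (1 - η) * q a) * ∏ x ∈ s, (1 - (1 - η) * q x) =
        (1 - q a) * ∏ x ∈ s, (1 - (1 - η) * q x) +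
          η * q a * ∏ x ∈ s, (1 - (1 - η) * q x) := by ring
    rw [e1]
    have e2 : (1 - q a) * ∏ x ∈ s, (1 - (1 - η) * q x) ≤
        (1 - q a) * (∏ x ∈ s, (1 - q x) + η * ∑ x ∈ s, q x) :=
      mul_le_mul_of_nonneg_left ih' (by linarith)
    have e3 : η * q a * ∏ x ∈ s, (1 - (1 - η) * q x) ≤ η * q a * 1 :=
      mul_le_mul_of_nonneg_left hP (mul_nonneg h0 ha0)
    have e4 : 0 ≤ q a * (η * ∑ x ∈ s, q x) := mul_nonneg ha0 (mul_nonneg h0 hS)
    nlinarith

theorem stmt_SE3 (h1 : Pool.Agent.Work.MP_1ce445_upg.Stmt_HUB) (h2 : Stmt_PWM)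
    (h3 : Stmt_SEC) : Stmt_SE3 := by
  classical
  intro M hM ε₀ κ hε₀ hκ hMκ
  obtain ⟨ε₁, hε₁, hPW⟩ := h2 M hM
  obtain ⟨η₀, hη₀, hη₀1, hSEC⟩ := h3 M hM κ hκ hMκ
  obtain ⟨η, hη⟩ : ∃ η, η = min (min η₀ (ε₁ / 4)) (min (ε₀ / 20) (1 / 8)) := ⟨_, rfl⟩
  have hηpos : 0 < η := by
    rw [hη]
    exact lt_min (lt_min hη₀ (by linarith)) (lt_min (by linarith) (by norm_num))
  have hηa : η ≤ η₀ := by rw [hη]; exact (min_le_left _ _).trans (min_le_left _ _)
  have hηb : η ≤ ε₁ / 4 := by rw [hη]; exact (min_le_left _ _).trans (min_le_right _ _)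
  have hηc : η ≤ ε₀ / 20 := by rw [hη]; exact (min_le_right _ _).trans (min_le_left _ _)
  have hηd : η ≤ 1 / 8 := by rw [hη]; exact (min_le_right _ _).trans (min_le_right _ _)
  refine ⟨η, hηpos, by linarith, ?_⟩
  intro n k T A W Vg c κ₁ hn hT hVg hSy hκ₁ hww hprod
  have hn' : (0 : ℝ) < n := by exact_mod_cast hn
  have hc4 := SET_quarter M hM
  have hp0 := SET_nonneg T
  have hp1 := SET_le_one T hn
  have hM' : (2 : ℝ) ≤ M := by exact_mod_cast hM
  -- the restricted system
  obtain ⟨q, hq⟩ : ∃ q : Fin k → ℝ, q = fun x => pr (fun v : Vg => T v.1) x := ⟨_, rfl⟩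
  have hN : (Fintype.card Vg : ℝ) = Vg.card := by rw [Fintype.card_coe]
  have hN0 : (0 : ℝ) < Fintype.card Vg := by exact_mod_cast hSy.pos
  have hc0 := hSy.cl
  have hc1 : c < 1 := by
    have h4 := hSy.cu
    have h5 : (0 : ℝ) < 1 / ((M : ℝ) + 1) := by positivity
    linarith
  have hq0 : ∀ x, 0 ≤ q x := by
    intro x
    rw [hq]
    unfold pr
    positivity
  have hqN : ∀ x, q x * Fintype.card Vg =
      ((univ.filter (fun v : Vg => x ∈ T v.1)).card : ℝ) := by
    intro x
    rw [hq]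
    unfold pr
    rw [div_mul_cancel₀ _ hN0.ne']
  have hq1 : ∀ x, q x ≤ 1 := by
    intro x
    have h4 : ((univ.filter (fun v : Vg => x ∈ T v.1)).card : ℝ) ≤ Fintype.card Vg := by
      exact_mod_cast Finset.card_le_univ _
    rw [← hqN x] at h4
    exact le_of_mul_le_mul_right (by linarith) hN0
  have hpq : ∀ x, (1 - η) * q x ≤ pT T x := by
    intro x
    have h4 : (univ.filter (fun v : Vg => x ∈ T v.1)).card ≤
        (univ.filter (fun v => x ∈ T v)).card := by
      refine Finset.card_le_card_of_injOn (fun v => v.1) ?_ ?_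
      · intro v hv
        have hv' : v ∈ univ.filter (fun v : Vg => x ∈ T v.1) := hv
        rw [Finset.mem_filter] at hv'
        show v.1 ∈ ((univ.filter (fun v => x ∈ T v) : Finset (Fin n)) : Set (Fin n))
        rw [Finset.mem_coe, Finset.mem_filter]
        exact ⟨Finset.mem_univ _, hv'.2⟩
      · intro v _ w _ hvw
        exact Subtype.ext hvw
    have h5 : q x * Fintype.card Vg ≤ pT T x * n := by
      rw [hqN x]
      unfold pT
      rw [div_mul_cancel₀ _ hn'.ne']
      exact_mod_cast h4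
    rw [hN] at h5
    have h6 : q x * ((1 - η) * n) ≤ q x * Vg.card := mul_le_mul_of_nonneg_left hVg (hq0 x)
    refine le_of_mul_le_mul_right ?_ hn'
    calc (1 - η) * q x * n = q x * ((1 - η) * n) := by ring
      _ ≤ pT T x * n := h6.trans h5
  have hTne : ∀ v ∈ Vg, (T v).Nonempty := by
    intro v hv
    have h4 := hSy.low ⟨v, hv⟩
    have h5 : 0 < (1 - c) * Fintype.card Vg := mul_pos (by linarith) hN0
    have h6 : 0 < dW (fun v w : Vg => W v.1 w.1) ⟨v, hv⟩ := by linarith
    unfold dW at h6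
    have h7 : 0 < (univ.filter (fun w : Vg => W v w.1)).card := by exact_mod_cast h6
    obtain ⟨w, hw⟩ := Finset.card_pos.1 h7
    have h8 := hSy.meet ⟨v, hv⟩ w (Finset.mem_filter.1 hw).2
    exact h8.mono Finset.inter_subset_left
  obtain ⟨A', hA'⟩ : ∃ A', A' = A.filter (fun x => ∃ v ∈ Vg, T v = {x}) := ⟨_, rfl⟩
  have hA'A : A' ⊆ A := by rw [hA']; exact Finset.filter_subset _ _
  have hA'q : ∀ x ∈ A', 1 - c ≤ q x := by
    intro x hx
    rw [hA', Finset.mem_filter] at hx
    obtain ⟨_, v, hv, hTv⟩ := hx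
    have h4 := hSy.low ⟨v, hv⟩
    have h5 : dW (fun v w : Vg => W v.1 w.1) ⟨v, hv⟩ ≤ q x * Fintype.card Vg := by
      rw [hqN x]
      unfold dW
      have h6 : (univ.filter (fun w : Vg => W v w.1)) ⊆
          (univ.filter (fun w : Vg => x ∈ T w.1)) := by
        intro w hw
        rw [Finset.mem_filter] at hw ⊢
        refine ⟨Finset.mem_univ _, ?_⟩
        have h8 := hSy.meet ⟨v, hv⟩ w hw.2
        obtain ⟨z, hz⟩ := h8
        rw [Finset.mem_inter] at hz
        have h9 : z ∈ T v := hz.1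
        rw [hTv, Finset.mem_singleton] at h9
        rw [← h9]
        exact hz.2
      exact_mod_cast Finset.card_le_card h6
    exact le_of_mul_le_mul_right (h4.trans h5) hN0
  rcases le_or_gt A'.card M with hcase | hcase
  · -- at most `M` singletons
    refine hSEC n k T A Vg hn hT ?_ hTne (by rw [← hA']; exact hcase) (by linarith)
    have h4 : (1 - η₀) * (n : ℝ) ≤ (1 - η) * n :=
      mul_le_mul_of_nonneg_right (by linarith) hn'.le
    linarith
  · exfalso
    rcases Nat.lt_or_ge (M + 1) A'.card with hbig | hsm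
    · -- at least `M + 2` singletons
      obtain ⟨B, hBA', hBc⟩ := Finset.exists_subset_card_eq (show M + 2 ≤ A'.card by omega)
      have hBA : B ⊆ A := hBA'.trans hA'A
      have h4 : ∏ x ∈ A, (1 - pT T x) ≤ ∏ x ∈ B, (1 - pT T x) := by
        rw [← Finset.prod_sdiff hBA]
        refine mul_le_of_le_one_left (Finset.prod_nonneg fun x _ => ?_)
          (Finset.prod_le_one (fun x _ => ?_) (fun x _ => ?_))
        · have := hp1 x; linarith
        · have := hp1 x; linarith
        · have := hp0 x; linarith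
      have h5 : ∏ x ∈ B, (1 - pT T x) ≤ ∏ _x ∈ B, (1 - 1 / ((M : ℝ) + 1) + ε₁) := by
        refine Finset.prod_le_prod (fun x _ => ?_) (fun x hx => ?_)
        · have := hp1 x; linarith
        · have h6 := hpq x
          have h7 := hA'q x (hBA' hx)
          have h8 := hSy.cu
          have h9 : (1 - η) * (1 - c) ≤ (1 - η) * q x :=
            mul_le_mul_of_nonneg_left h7 (by linarith)
          have h10 : η * (1 - c) ≤ η := by nlinarith
          have h11 : (1 - η) * (1 - c) = 1 - c - η * (1 - c) := by ring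
          linarith
      rw [Finset.prod_const, hBc] at h5
      linarith
    · -- exactly `M + 1` singletons
      have hcard : A'.card = M + 1 := by omega
      have hSg : Pool.Agent.Work.MP_1ce445_upg.Sg (fun v : Vg => T v.1) = A' := by
        rw [hA']
        unfold Pool.Agent.Work.MP_1ce445_upg.Sg
        ext x
        rw [Finset.mem_filter, Finset.mem_filter]
        constructor
        · rintro ⟨_, v, hv⟩
          refine ⟨hT v.1 ?_, v.1, v.2, hv⟩
          have hv' : T v.1 = {x} := hv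
          rw [hv']
          exact Finset.mem_singleton_self x
        · rintro ⟨_, v, hv, hTv⟩
          exact ⟨Finset.mem_univ _, ⟨v, hv⟩, hTv⟩
      have hH := h1 A (fun v : Vg => T v.1) (fun v w : Vg => W v.1 w.1) M c κ₁ hSy
        (by rw [hSg]; exact hcard)
      have hH' : ∏ x ∈ A, (1 - q x) ≤ ww M c ^ (M + 1) + Real.sqrt κ₁ := by
        rw [hq]
        exact hH
      have h4 : ∏ x ∈ A, (1 - pT T x) ≤ ∏ x ∈ A, (1 - (1 - η) * q x) := by
        refine Finset.prod_le_prod (fun x _ => ?_) (fun x _ => ?_)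
        · have := hp1 x; linarith
        · have := hpq x; linarith
      have h5 := (SE3_prod A q η hηpos.le (by linarith) (fun x _ => hq0 x)
        (fun x _ => hq1 x)).1
      -- the sums
      have h6 : ∏ x ∈ A, (1 - pT T x) ≤ Real.exp (- ∑ x ∈ A, pT T x) := by
        rw [← Finset.sum_neg_distrib, Real.exp_sum]
        refine Finset.prod_le_prod (fun x _ => ?_) (fun x _ => ?_)
        · have := hp1 x; linarith
        · have := Real.add_one_le_exp (- pT T x)
          linarith
      have h7 : ∑ x ∈ A, pT T x ≤ 4 := by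
        by_contra hcon
        push Not at hcon
        have h8 : Real.exp (- ∑ x ∈ A, pT T x) ≤ Real.exp (-4) :=
          Real.exp_le_exp.2 (by linarith)
        have h9 : Real.exp (-4) < 1 / 8 := by
          have e1 : (2 : ℝ) ≤ Real.exp 1 := by
            have := Real.add_one_le_exp (1 : ℝ)
            linarith
          have e2 : (16 : ℝ) ≤ Real.exp 4 := by
            have e3 : Real.exp 4 = Real.exp 1 ^ 4 := by
              rw [← Real.exp_nat_mul]
              norm_num
            rw [e3]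
            calc (16 : ℝ) = 2 ^ 4 := by norm_num
              _ ≤ Real.exp 1 ^ 4 := pow_le_pow_left₀ (by norm_num) e1 4
          rw [Real.exp_neg]
          rw [inv_eq_one_div]
          exact one_div_lt_one_div_of_lt (by norm_num) (by linarith)
        linarith
      have h8 : ∑ x ∈ A, q x ≤ 8 := by
        have e1 : (1 - η) * ∑ x ∈ A, q x ≤ ∑ x ∈ A, pT T x := by
          rw [Finset.mul_sum]
          exact Finset.sum_le_sum (fun x _ => hpq x)
        have e2 : 0 ≤ ∑ x ∈ A, q x := Finset.sum_nonneg (fun x _ => hq0 x)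
        nlinarith
      have h9 : η * ∑ x ∈ A, q x ≤ η * 8 := mul_le_mul_of_nonneg_left h8 hηpos.le
      linarith

end Pool.Agent.Work.MP_1ce445_pln
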