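import Pool.Agent.Work.MP_1ce445_pln.Interface
import Pool.Agent.Work.MP_1ce445_stm.SET

/-! # Block SEC: set systems with at most `M` singleton elements and a product which is nearly the largest -/

namespace Pool.Agent.Work.MP_1ce445_pln

open Finset Pool.Agent.Work.MP_1ce445_co_56 Pool.Agent.Work.MP_1ce445_lin
  Pool.Agent.Work.MP_1ce445_fx Pool.Agent.Work.MP_1ce445_stm Pool.Agent.Work.MP_1ce445_plt

theorem stmt_SEC (h1 : Stmt_TN2) : Stmt_SEC := by
  classical
  intro M hM κ hκ hMκ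
  obtain ⟨a, b, ha1, ha2, hb1, hb2, hab, hab2, htan⟩ := h1 M hM
  have hM' : (2 : ℝ) ≤ M := by exact_mod_cast hM
  have hM0 : (0 : ℝ) < M := by linarith
  have hi : 1 / (M : ℝ) ≤ 1 / 2 := one_div_le_one_div_of_le (by norm_num) hM'
  have hi0 : 0 < 1 / (M : ℝ) := by positivity
  have hiM : 1 / (M : ℝ) * M = 1 := by field_simp
  have hκM : 4 * (M : ℝ) * κ ≤ 1 / M := by
    rw [le_div_iff₀ hM0]
    nlinarith
  have hκ1 : κ ≤ 1 / 16 := by nlinarith
  have hκ2 : κ ^ 2 ≤ κ / 16 := by nlinarith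
  obtain ⟨ζ, hζ⟩ : ∃ ζ, ζ = κ ^ 2 / 100 := ⟨_, rfl⟩
  have hζ0 : 0 < ζ := by rw [hζ]; positivity
  have hζ1 : ζ ≤ κ ^ 2 / 100 := hζ.le
  obtain ⟨η, hη⟩ : ∃ η, η = ζ ^ 2 / (20 * M) := ⟨_, rfl⟩
  have hη0 : 0 < η := by rw [hη]; positivity
  have hηe : 20 * M * η = ζ ^ 2 := by
    rw [hη]
    field_simp
  have hζ3 : ζ ≤ 1 / 1600 := by linarith
  have hη40 : 40 * η ≤ ζ ^ 2 := by
    rw [← hηe]
    have : 2 * η ≤ M * η := mul_le_mul_of_nonneg_right hM' hη0.le
    linarith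
  have hζsq : ζ ^ 2 ≤ ζ * (κ ^ 2 / 100) := by
    rw [sq]
    exact mul_le_mul_of_nonneg_left hζ1 hζ0.le
  have hζsq' : ζ ^ 2 ≤ ζ := by nlinarith
  have h30 : 30 * η ≤ κ ^ 2 * ζ := by nlinarith [mul_pos hζ0 (pow_pos hκ 2)]
  refine ⟨η, hη0, by linarith, ?_⟩
  intro n k T A Vg hn hT hVg hne hcard0 hprod
  have hn' : (0 : ℝ) < n := by exact_mod_cast hn
  have hc := SET_quarter M hM
  have hηc : η ≤ 1 / 8 := by linarith
  have hp0 := SET_nonneg T
  have hp1 := SET_le_one T hn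
  -- all `p_x < 1`
  have hPpos : 0 < ∏ x ∈ A, (1 - pT T x) := by linarith
  have hp2 : ∀ x ∈ A, pT T x < 1 := by
    intro x hx
    have h2 : (1 - pT T x) ≠ 0 := (Finset.prod_ne_zero_iff.1 hPpos.ne') x hx
    have h3 := hp1 x
    exact lt_of_le_of_ne h3 (fun h => h2 (by rw [h]; ring))
  -- the heavy elements
  obtain ⟨A', hA'⟩ : ∃ A', A' = A.filter (fun x => ∃ v ∈ Vg, T v = {x}) := ⟨_, rfl⟩
  have hA'A : A' ⊆ A := by rw [hA']; exact Finset.filter_subset _ _
  have hcardA' : A'.card ≤ M := by rw [hA']; exact hcard0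
  have hTne : ∀ v ∈ Vg, 1 ≤ (T v).card := fun v hv => Finset.card_pos.2 (hne v hv)
  -- the vertices of `Vg` with two elements
  obtain ⟨S2, hS2⟩ : ∃ S2, S2 = Vg.filter (fun v => 2 ≤ (T v).card) := ⟨_, rfl⟩
  obtain ⟨r, hr⟩ : ∃ r, r = (S2.card : ℝ) / n := ⟨_, rfl⟩
  have hrn : (S2.card : ℝ) = n * r := by
    rw [hr]
    field_simp
  have hr0 : 0 ≤ r := by rw [hr]; positivity
  have hS2sum : (S2.card : ℝ) = ∑ v ∈ Vg, if 2 ≤ (T v).card then (1 : ℝ) else 0 := by
    rw [hS2, Finset.sum_boole]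
  have hVgsum : (Vg.card : ℝ) = ∑ _v ∈ Vg, (1 : ℝ) := by simp
  -- `s₁`
  have hs1 : (n : ℝ) * ∑ x ∈ A, pT T x = ∑ v, ((T v).card : ℝ) := by
    have h2 := SET_double T A hn hT (fun _ => 1)
    simp only [mul_one, Finset.sum_const, nsmul_eq_mul] at h2
    exact h2
  have hs1low : 1 - η + r ≤ ∑ x ∈ A, pT T x := by
    have h2 : (Vg.card : ℝ) + S2.card ≤ ∑ v, ((T v).card : ℝ) := by
      rw [hS2sum, hVgsum, ← Finset.sum_add_distrib]
      refine (Finset.sum_le_sum (g := fun v => ((T v).card : ℝ)) (fun v hv => ?_)).trans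
        (Finset.sum_le_sum_of_subset_of_nonneg (Finset.subset_univ _)
              (fun v _ _ => Nat.cast_nonneg _))
      have h3 := hTne v hv
      split_ifs with h4
      · have : (2 : ℝ) ≤ (T v).card := by exact_mod_cast h4
        linarith
      · have : (1 : ℝ) ≤ (T v).card := by exact_mod_cast h3
        linarith
    have h4 : (n : ℝ) * (1 - η + r) ≤ (n : ℝ) * ∑ x ∈ A, pT T x := by
      rw [hs1]
      have : (n : ℝ) * (1 - η + r) = (1 - η) * n + n * r := by ring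
      rw [this]
      linarith
    exact le_of_mul_le_mul_left h4 hn'
  have hxlow : 1 - η - r ≤ ∑ x ∈ A', pT T x := by
    have h2 := SET_double T A hn hT (fun x => if x ∈ A' then 1 else 0)
    have h3 : ∑ x ∈ A, pT T x * (if x ∈ A' then 1 else 0) = ∑ x ∈ A', pT T x := by
      have h4 : ∀ x ∈ A, pT T x * (if x ∈ A' then (1 : ℝ) else 0) =
          if x ∈ A' then pT T x else 0 := by
        intro x _
        split_ifs <;> simp
      rw [Finset.sum_congr rfl h4, ← Finset.sum_filter]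
      congr 1
      ext x
      rw [Finset.mem_filter]
      exact ⟨fun h => h.2, fun h => ⟨hA'A h, h⟩⟩
    rw [h3] at h2
    have h5 : (Vg.card : ℝ) - S2.card ≤
        ∑ v, ∑ x ∈ T v, (if x ∈ A' then (1 : ℝ) else 0) := by
      rw [hS2sum, hVgsum, ← Finset.sum_sub_distrib]
      refine (Finset.sum_le_sum (g := fun v => ∑ x ∈ T v, (if x ∈ A' then (1 : ℝ) else 0))
        (fun v hv => ?_)).trans
        (Finset.sum_le_sum_of_subset_of_nonneg (Finset.subset_univ _)
              (fun v _ _ => Finset.sum_nonneg (fun x _ => by split_ifs <;> norm_num)))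
      have h3 := hTne v hv
      split_ifs with h4
      · have : 0 ≤ ∑ x ∈ T v, (if x ∈ A' then (1 : ℝ) else 0) :=
          Finset.sum_nonneg (fun x _ => by split_ifs <;> norm_num)
        linarith
      · have h6 : (T v).card = 1 := by omega
        obtain ⟨x, hx⟩ := Finset.card_eq_one.1 h6
        have h7 : x ∈ A' := by
          rw [hA', Finset.mem_filter]
          refine ⟨hT v ?_, v, hv, hx⟩
          rw [hx]
          exact Finset.mem_singleton_self x
        rw [hx, Finset.sum_singleton, if_pos h7]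
        norm_num
    have h4 : (n : ℝ) * (1 - η - r) ≤ (n : ℝ) * ∑ x ∈ A', pT T x := by
      rw [h2]
      have : (n : ℝ) * (1 - η - r) = (1 - η) * n - n * r := by ring
      rw [this]
      linarith
    exact le_of_mul_le_mul_left h4 hn'
  -- TN2
  obtain ⟨s1, hs1d⟩ : ∃ s1, s1 = ∑ x ∈ A, pT T x := ⟨_, rfl⟩
  obtain ⟨x1, hx1d⟩ : ∃ x1, x1 = ∑ x ∈ A', pT T x := ⟨_, rfl⟩
  obtain ⟨x2, hx2d⟩ : ∃ x2, x2 = ∑ x ∈ A', pT T x ^ 2 := ⟨_, rfl⟩
  obtain ⟨Q, hQ⟩ : ∃ Q, Q = ∑ x ∈ A', pT T x * (pT T x - 1 / M) ^ 2 := ⟨_, rfl⟩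
  rw [← hs1d] at hs1low
  rw [← hx1d] at hxlow
  have hQ0 : 0 ≤ Q := by
    rw [hQ]
    exact Finset.sum_nonneg (fun x _ => mul_nonneg (hp0 x) (sq_nonneg _))
  have hsplitA : s1 - x1 = ∑ x ∈ A \ A', pT T x := by
    rw [hs1d, hx1d, ← Finset.sum_sdiff hA'A]
    ring
  have hCS : x1 ^ 2 ≤ M * x2 := by
    have h2 := sq_sum_le_card_mul_sum_sq (s := A') (f := fun x => pT T x)
    rw [← hx1d, ← hx2d] at h2
    have h3 : (A'.card : ℝ) ≤ M := by exact_mod_cast hcardA'
    have h4 : 0 ≤ x2 := by rw [hx2d]; positivity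
    exact h2.trans (mul_le_mul_of_nonneg_right h3 h4)
  have hmain : a * x1 + b * x2 + Q / 3 + (s1 - x1) ≤ - Real.log (∏ x ∈ A, (1 - pT T x)) := by
    rw [Real.log_prod (fun x hx => by have := hp2 x hx; linarith), ← Finset.sum_neg_distrib,
      ← Finset.sum_sdiff hA'A, add_comm (∑ x ∈ A \ A', -Real.log (1 - pT T x))]
    refine add_le_add ?_ ?_
    · calc a * x1 + b * x2 + Q / 3 =
          ∑ x ∈ A', (a * pT T x + b * pT T x ^ 2 + pT T x * (pT T x - 1 / M) ^ 2 / 3) := by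
            rw [hx1d, hx2d, hQ, Finset.mul_sum, Finset.mul_sum, Finset.sum_div,
              ← Finset.sum_add_distrib, ← Finset.sum_add_distrib]
        _ ≤ ∑ x ∈ A', -Real.log (1 - pT T x) :=
            Finset.sum_le_sum (fun x hx => htan _ (hp0 x) (hp2 x (hA'A hx)))
    · rw [hsplitA]
      refine Finset.sum_le_sum (fun x hx => ?_)
      have h2 := hp2 x (Finset.mem_sdiff.1 hx).1
      have h3 := Real.log_le_sub_one_of_pos (show 0 < 1 - pT T x by linarith)
      linarith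
  have hlog1 : - Real.log (∏ x ∈ A, (1 - pT T x)) ≤ - Real.log ((1 - 1 / (M : ℝ)) ^ M - η) := by
    apply neg_le_neg
    exact Real.log_le_log (by linarith) hprod
  have hlog2 := SET_log ((1 - 1 / (M : ℝ)) ^ M) η hc hη0.le hηc
  have hlog3 : - Real.log ((1 - 1 / (M : ℝ)) ^ M) = a + b / M := by
    rw [Real.log_pow, hab]
    ring
  obtain ⟨y, hy⟩ : ∃ y, y = 1 - x1 := ⟨_, rfl⟩
  obtain ⟨c, hcd⟩ : ∃ c, c = b / (M : ℝ) := ⟨_, rfl⟩
  have hcM : c * M = b := by
    rw [hcd]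
    field_simp
  have hc0 : 0 < c := by rw [hcd]; positivity
  have hbx2 : c * x1 ^ 2 ≤ b * x2 := by
    have h2 := mul_le_mul_of_nonneg_left hCS hc0.le
    have h3 : c * (M * x2) = b * x2 := by rw [← mul_assoc, hcM]
    linarith
  have hq : 1 - (a + 2 * c) ≥ -1 ∧ 1 - (a + 2 * c) ≤ 0 := by
    have h2 : a + 2 * c = a + 2 * b / M := by rw [hcd]; ring
    have h3 : 1 / (1 - 1 / (M : ℝ)) ≤ 2 := by
      rw [div_le_iff₀ (by linarith)]
      linarith
    have h4 : 1 ≤ 1 / (1 - 1 / (M : ℝ)) := by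
      rw [le_div_iff₀ (by linarith)]
      linarith
    rw [h2, hab2]
    constructor <;> linarith
  have hall : y * (1 - (a + 2 * c)) + c * y ^ 2 + Q / 3 + (s1 - 1) ≤ 8 * η := by
    have h2 : a * x1 + c * x1 ^ 2 + Q / 3 + (s1 - x1) ≤ a + b / M + 8 * η := by linarith
    rw [← hcd] at h2
    have h3 : x1 = 1 - y := by rw [hy]; ring
    rw [h3] at h2
    have h4 : a * (1 - y) + c * (1 - y) ^ 2 + Q / 3 + (s1 - (1 - y)) =
        y * (1 - (a + 2 * c)) + c * y ^ 2 + Q / 3 + (s1 - 1) + (a + c) := by ring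
    linarith
  have hyr : y ≤ η + r := by rw [hy]; linarith
  have hcy0 : 0 ≤ c * y ^ 2 := by positivity
  have hboth : c * y ^ 2 + Q / 3 ≤ 10 * η ∧ r ≤ 9 * η + |y| := by
    rcases le_or_gt 0 y with hy0 | hy0
    · have h2 : -y ≤ y * (1 - (a + 2 * c)) := by nlinarith [hq.1]
      rw [abs_of_nonneg hy0]
      constructor <;> linarith
    · have h2 : 0 ≤ y * (1 - (a + 2 * c)) := mul_nonneg_of_nonpos_of_nonpos hy0.le hq.2
      have h3 := abs_nonneg y
      constructor <;> linarith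
  have hysq : y ^ 2 ≤ ζ ^ 2 := by
    rw [← hηe]
    have h2 : c * y ^ 2 ≤ 10 * η := by linarith [hboth.1]
    have h3 : M * (c * y ^ 2) ≤ M * (10 * η) := mul_le_mul_of_nonneg_left h2 hM0.le
    have h4 : M * (c * y ^ 2) = b * y ^ 2 := by rw [← hcM]; ring
    have h5 : 1 / 2 * y ^ 2 ≤ b * y ^ 2 := mul_le_mul_of_nonneg_right hb1 (sq_nonneg y)
    linarith
  have hyζ : |y| ≤ ζ := abs_le_of_sq_le_sq hysq hζ0.le
  have hQup : Q ≤ κ ^ 2 * ζ := by linarith [hboth.1]
  have hrup : r ≤ 9 * η + ζ := by linarith [hboth.2]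
  -- the large ones
  obtain ⟨X, hX⟩ : ∃ X, X = A'.filter (fun x => |pT T x - 1 / M| ≤ κ) := ⟨_, rfl⟩
  have hXA : X ⊆ A' := by rw [hX]; exact Finset.filter_subset _ _
  have hXmem : ∀ x ∈ X, |pT T x - 1 / M| ≤ κ := fun x hx => by
    rw [hX] at hx
    exact (Finset.mem_filter.1 hx).2
  have hsplit : x1 = ∑ x ∈ X, pT T x + ∑ x ∈ A' \ X, pT T x := by
    rw [add_comm, Finset.sum_sdiff hXA, hx1d]
  have hrest : ∑ x ∈ A' \ X, pT T x ≤ ζ := by
    have h2 : κ ^ 2 * ∑ x ∈ A' \ X, pT T x ≤ Q := by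
      rw [Finset.mul_sum, hQ]
      refine (Finset.sum_le_sum (f := fun x => κ ^ 2 * pT T x)
        (g := fun x => pT T x * (pT T x - 1 / M) ^ 2) (fun x hx => ?_)).trans
        (Finset.sum_le_sum_of_subset_of_nonneg Finset.sdiff_subset
          (fun x _ _ => mul_nonneg (hp0 x) (sq_nonneg _)))
      rw [Finset.mem_sdiff] at hx
      have h3 : ¬ |pT T x - 1 / M| ≤ κ := fun h => hx.2 (by
        rw [hX]
        exact Finset.mem_filter.2 ⟨hx.1, h⟩)
      push Not at h3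
      have h4 : κ ^ 2 ≤ (pT T x - 1 / M) ^ 2 := by
        rw [← sq_abs (pT T x - 1 / M)]
        exact pow_le_pow_left₀ hκ.le h3.le 2
      show κ ^ 2 * pT T x ≤ pT T x * (pT T x - 1 / M) ^ 2
      rw [mul_comm]
      exact mul_le_mul_of_nonneg_left h4 (hp0 x)
    exact le_of_mul_le_mul_left (h2.trans hQup) (by positivity)
  have hXup : ∑ x ∈ X, pT T x ≤ (X.card : ℝ) * (1 / M + κ) := by
    rw [← nsmul_eq_mul, ← Finset.sum_const]
    refine Finset.sum_le_sum (fun x hx => ?_)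
    have := (abs_le.1 (hXmem x hx)).2
    linarith
  have hcard : X.card = M := by
    apply le_antisymm ((Finset.card_le_card hXA).trans hcardA')
    by_contra h
    push Not at h
    have h2 : (X.card : ℝ) + 1 ≤ M := by exact_mod_cast h
    have h3 : (X.card : ℝ) * (1 / M + κ) ≤ ((M : ℝ) - 1) * (1 / M + κ) :=
      mul_le_mul_of_nonneg_right (by linarith) (by linarith)
    have h4 : ((M : ℝ) - 1) * (1 / M + κ) = 1 - 1 / M + M * κ - κ := by
      have : ((M : ℝ) - 1) * (1 / M + κ) = 1 / M * M - 1 / M + M * κ - κ := by ring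
      rw [this, hiM]
    have h5 : 0 < M * κ := by positivity
    have h6 := (abs_le.1 hyζ).2
    linarith
  refine ⟨fun i => X.orderEmbOfFin hcard i, (X.orderEmbOfFin hcard).injective, fun i => ?_,
    fun i => ?_, ?_⟩
  · exact hA'A (hXA (Finset.orderEmbOfFin_mem X hcard i))
  · exact hXmem _ (Finset.orderEmbOfFin_mem X hcard i)
  · have h4 : (univ.filter (fun v => 2 ≤ (T v).card)) ⊆ S2 ∪ (univ \ Vg) := by
      intro v hv
      rw [Finset.mem_union, Finset.mem_sdiff, hS2, Finset.mem_filter]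
      by_cases h5 : v ∈ Vg
      · exact Or.inl ⟨h5, (Finset.mem_filter.1 hv).2⟩
      · exact Or.inr ⟨Finset.mem_univ _, h5⟩
    have h5 := (Finset.card_le_card h4).trans (Finset.card_union_le _ _)
    have h6 : (univ \ Vg).card + Vg.card = n := by
      rw [Finset.card_sdiff_add_card_eq_card (Finset.subset_univ _), Finset.card_univ,
        Fintype.card_fin]
    have h7 : ((univ \ Vg).card : ℝ) + Vg.card = n := by exact_mod_cast h6
    have h8 : ((univ.filter (fun v => 2 ≤ (T v).card)).card : ℝ) ≤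
        (S2.card : ℝ) + ((univ \ Vg).card : ℝ) := by exact_mod_cast h5
    have h9 : ((univ.filter (fun v => 2 ≤ (T v).card)).card : ℝ) ≤ (r + η) * n := by
      have h10 : (r + η) * (n : ℝ) = n * r + η * n := by ring
      have h11 : (1 - η) * (n : ℝ) = n - η * n := by ring
      linarith
    refine h9.trans ?_
    exact mul_le_mul_of_nonneg_right (by linarith) hn'.le

end Pool.Agent.Work.MP_1ce445_pln
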