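import Pool.Agent.Work.MP_1ce445_pln.Interface

/-!
UPV (MP_1ce445, plateaus near their ends): the upper bound for all `tau ≥ 1/n`.
-/

namespace Pool.Agent.Work.MP_1ce445_pln

open Finset Pool.Agent.Work.MP_1ce445_co_56 Pool.Agent.Work.MP_1ce445_lin
  Pool.Agent.Work.MP_1ce445_fx Pool.Agent.Work.MP_1ce445_stm Pool.Agent.Work.MP_1ce445_plt

lemma UPV_delta (M : ℕ) (hM : 2 ≤ M) : ∃ δ : ℝ, 0 < δ ∧
    (1 - 1 / (M : ℝ) + δ / M) ^ (M + 1) + δ ≤ (1 - 1 / (M : ℝ)) ^ M := by
  have hM' : (2 : ℝ) ≤ M := by exact_mod_cast hM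
  have hM0 : (0 : ℝ) < M := by linarith
  have h1 : 0 < 1 / (M : ℝ) := by positivity
  have h2 : 1 / (M : ℝ) ≤ 1 / 2 := one_div_le_one_div_of_le (by norm_num) hM'
  have hlt : (1 - 1 / (M : ℝ) + 0 / M) ^ (M + 1) + 0 < (1 - 1 / (M : ℝ)) ^ M := by
    rw [zero_div, add_zero, add_zero]
    exact pow_lt_pow_right_of_lt_one₀ (by linarith) (by linarith) (Nat.lt_succ_self M)
  have hc : Continuous (fun δ : ℝ => (1 - 1 / (M : ℝ) + δ / M) ^ (M + 1) + δ) := by
    fun_prop
  have hev := (hc.tendsto 0).eventually (gt_mem_nhds hlt)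
  obtain ⟨δ, hδ, hb⟩ := Metric.eventually_nhds_iff.1 hev
  refine ⟨δ / 2, by linarith, ?_⟩
  have := hb (y := δ / 2) (by rw [Real.dist_eq, sub_zero, abs_of_pos (by linarith)]; linarith)
  exact this.le

theorem stmt_UPV : Stmt_UPU → Stmt_UP3 → Stmt_UPV := by
  intro hU h3 M hM ε hε hε1
  obtain ⟨δ, hδ, hb⟩ := UPV_delta M hM
  have hM' : (2 : ℝ) ≤ M := by exact_mod_cast hM
  have hM0 : (0 : ℝ) < M := by linarith
  have he : 0 < min ε δ := lt_min hε hδ
  obtain ⟨n1, hn1⟩ := hU M hM (min ε δ) he (lt_of_le_of_lt (min_le_left _ _) hε1)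
  obtain ⟨n2, hn2⟩ := h3 M hM (min ε δ) he
  refine ⟨max (max n1 n2) 1, ?_⟩
  intro n k hn heven htau hk
  have hnn1 : n1 ≤ n := le_trans (le_trans (le_max_left _ _) (le_max_left _ _)) hn
  have hnn2 : n2 ≤ n := le_trans (le_trans (le_max_right _ _) (le_max_left _ _)) hn
  have hn0 : 1 ≤ n := le_trans (le_max_right _ _) hn
  have hn0' : (1 : ℝ) ≤ n := by exact_mod_cast hn0
  have htau0 : 0 < tau n k M := lt_of_lt_of_le (by positivity) htau
  have hkt : (k : ℝ) / n = 1 - 1 / M + tau n k M / M := by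
    unfold tau
    field_simp
    ring
  have htau1 : tau n k M ≤ 1 := by
    have h1 : tau n k M = M * ((k : ℝ) / n) - (M - 1) := by unfold tau; ring
    have h2 : (k : ℝ) / n ≤ 1 := by
      refine hk.trans ?_
      unfold cend
      have h3 : 0 < 1 / ((M : ℝ) + 1) := by positivity
      have h4 : 0 < 1 / (4 * (M : ℝ) ^ 4) := by positivity
      linarith
    rw [h1]
    nlinarith
  have hL : 0 ≤ Real.log n / (- Real.log (tau n k M)) := by
    apply div_nonneg (Real.log_nonneg hn0')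
    have := Real.log_nonpos htau0.le htau1
    linarith
  have hbase : 0 ≤ (n : ℝ) - n / M := by
    have : (n : ℝ) / M ≤ n := div_le_self (by linarith) (by linarith)
    linarith
  have hmin : min ε δ ≤ ε := min_le_left _ _
  rcases le_total (tau n k M) δ with hcase | hcase
  · have h1 : ((k : ℝ) / n) ^ (M + 1) + min ε δ ≤ (1 - 1 / (M : ℝ)) ^ M := by
      refine le_trans (add_le_add ?_ (min_le_right ε δ)) hb
      apply pow_le_pow_left₀ (by positivity)
      rw [hkt]
      have := div_le_div_of_nonneg_right hcase hM0.le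
      linarith
    refine (hn1 n k hnn1 heven htau h1).trans ?_
    apply mul_le_mul_of_nonneg_left _ (by positivity)
    apply pow_le_pow_left₀
    · have := mul_nonneg (by linarith : 0 ≤ 1 + min ε δ) hL
      linarith
    · have := mul_le_mul_of_nonneg_right hmin hL
      linarith
  · refine (hn2 n k hnn2 heven ((min_le_right ε δ).trans hcase) hk).trans ?_
    apply mul_le_mul_of_nonneg_left _ (by positivity)
    apply pow_le_pow_left₀
    · have := mul_nonneg (by linarith : 0 ≤ 1 + min ε δ) hL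
      linarith
    · have := mul_le_mul_of_nonneg_right hmin hL
      linarith

end Pool.Agent.Work.MP_1ce445_pln
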