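import Pool.Agent.Work.MP_1ce445_plt.All2
import Pool.Agent.Work.MP_1ce445_upg.HUB
import Pool.Agent.Work.MP_1ce445_upg.CNT
import Pool.Agent.Work.MP_1ce445_upg.QUA
import Pool.Agent.Work.MP_1ce445_upg.REA
import Pool.Agent.Work.MP_1ce445_pln.PWM
import Pool.Agent.Work.MP_1ce445_pln.RNG
import Pool.Agent.Work.MP_1ce445_pln.CR4
import Pool.Agent.Work.MP_1ce445_pln.SEC
import Pool.Agent.Work.MP_1ce445_pln.SE3
import Pool.Agent.Work.MP_1ce445_pln.ST3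
import Pool.Agent.Work.MP_1ce445_pln.SB3
import Pool.Agent.Work.MP_1ce445_pln.UP3
import Pool.Agent.Work.MP_1ce445_pln.UPV
import Pool.Agent.Work.MP_1ce445_pln.FPV
import Pool.Agent.Work.MP_1ce445_pln.PLV

/-!
Assembly: the plateaus `M ≥ 2` up to (nearly) their ends.
-/

namespace Pool.Agent.Work.MP_1ce445_pln

open Finset Pool.Agent.Work.MP_1ce445_co_56 Pool.Agent.Work.MP_1ce445_lin
  Pool.Agent.Work.MP_1ce445_fx Pool.Agent.Work.MP_1ce445_stm Pool.Agent.Work.MP_1ce445_plt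

theorem h_HUB : Pool.Agent.Work.MP_1ce445_upg.Stmt_HUB :=
  Pool.Agent.Work.MP_1ce445_upg.stmt_HUB Pool.Agent.Work.MP_1ce445_upg.stmt_CNT
    Pool.Agent.Work.MP_1ce445_upg.stmt_QUA Pool.Agent.Work.MP_1ce445_upg.stmt_REA
theorem h_SEC : Stmt_SEC := stmt_SEC stmt_TN2
theorem h_SE3 : Stmt_SE3 := stmt_SE3 h_HUB stmt_PWM h_SEC
theorem h_ST3 : Stmt_ST3 := stmt_ST3 stmt_RNG stmt_CR4 h_SE3
theorem h_SB3 : Stmt_SB3 := stmt_SB3 h_DEG h_EMO h_ST3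
theorem h_UP3 : Stmt_UP3 := stmt_UP3 stmt_PRR h_SB3 h_ADP
theorem h_UPV : Stmt_UPV := stmt_UPV h_UPU h_UP3
theorem h_FPV : Stmt_FPV := stmt_FPV h_UPV h_SLU

/-- The plateau theorem with the range `k/n ≤ cend M`. -/
theorem h_PLV : Stmt_PLV := stmt_PLV h_FPV h_FIR h_FI2

end Pool.Agent.Work.MP_1ce445_pln
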