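import Pool.Agent.Work.MP_1ce445_plt.Interface2
import Pool.Agent.Work.MP_1ce445_upg.Interface

/-!
THE PLATEAUS `M ≥ 2` UP TO (NEARLY) THEIR ENDS (helper28). The plateau theorem `MP_1ce445_plt` (`Stmt_PLA`) with the range
`k/n ≤ 1 - 1/(M+1) - 1/(4 M⁴)` in the place of `(k/n)^(M+1) + ε ≤ (1 - 1/M)^M`. The only new point is the case of exactly
`M + 1` singleton elements in the stability of the set systems: `Stmt_HUB` of `MP_1ce445_upg`.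

One file `Pool/Agent/Work/MP_1ce445_pln/<ID>.lean` per block, `import Pool.Agent.Work.MP_1ce445_pln.Interface`, the
`namespace` and `open` lines of this file, theorem `stmt_<ID> : Stmt_X → Stmt_Y → Stmt_<ID>` with exactly the statements of
the column `uses` as hypotheses, in this order (`upg.` = `Pool.Agent.Work.MP_1ce445_upg`, `stm.` = `Pool.Agent.Work.MP_1ce445_stm`,
`plt.` = `Pool.Agent.Work.MP_1ce445_plt`; all of these are open except `upg`); auxiliary lemmas with the name of the block in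
front. No straight double quotes. Most blocks are copies of typed files; the typed files may be imported.
-/

namespace Pool.Agent.Work.MP_1ce445_pln

open Finset Pool.Agent.Work.MP_1ce445_co_56 Pool.Agent.Work.MP_1ce445_lin
  Pool.Agent.Work.MP_1ce445_fx Pool.Agent.Work.MP_1ce445_stm Pool.Agent.Work.MP_1ce445_plt

/-- the end of the range -/
noncomputable def cend (M : ℕ) : ℝ := 1 - 1 / ((M : ℝ) + 1) - 1 / (4 * (M : ℝ) ^ 4)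

/-- the base of the bound for exactly `M + 1` singletons -/
noncomputable def ww (M : ℕ) (c : ℝ) : ℝ := c - Pool.Agent.Work.MP_1ce445_upg.Dl M c / (M + 1)

/-! ### Real numbers -/

/-- PWM (60 lines): margin in `upg.Stmt_POW`. Strict inequality ` (1 - 1/(M+1))^(M+2) < (1 - 1/M)^M` (as in
`MP_1ce445_upg/POW.lean`, with `x + 1 < exp x` for `x = 1/(M² - 1) ≠ 0`), then continuity in `ε₁` at `0`. -/
def Stmt_PWM : Prop :=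
  ∀ M : ℕ, 2 ≤ M → ∃ ε₁ : ℝ, 0 < ε₁ ∧
    (1 - 1 / ((M : ℝ) + 1) + ε₁) ^ (M + 2) + ε₁ ≤ (1 - 1 / (M : ℝ)) ^ M

/-- RNG (200 lines). `ζ = (1 - (M+1)/(4M³))/(2M²)`, `w₁ = (M - ζ)/(M+1)`. Claim: `0 ≤ ww M c ≤ w₁` for `0 ≤ c ≤ cend M`.
Let `η = M - (M+1) c ≥ η₁ := (M+1)/(4M⁴)`, `b = M c - (M-1) = (1 - Mη)/(M+1)`, `z = √(η b)`, `Dl M c = max 0 (z - η)`. If `η ≥ ζ`:
`ww ≤ c = (M - η)/(M+1) ≤ w₁`. If `η₁ ≤ η ≤ ζ`: `ww ≤ c - (z - η)/(M+1) = (M - z)/(M+1)`, and `z² = η (1 - Mη)/(M+1) ≥ ζ²`, because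
`η (1 - Mη)` is concave and `η₁ (1 - Mη₁)/(M+1) = (1 - (M+1)/(4M³))/(4M⁴) ≥ ζ²`, `ζ (1 - Mζ)/(M+1) ≥ ζ²` (`(2M+1) ζ ≤ 1`).
(`0 ≤ ww`: `UPU_Dl` in `MP_1ce445_upg/UPU.lean`.) Claim: `w₁^(M+1) < (1 - 1/M)^M`. `M = 2`: `w₁ = 161/256`, numbers. `M ≥ 3`: equivalent to
` (1 + x)^M · (1 + 1/M)^(-1) · (1 - ζ/M)^(M+1) < 1` with `x = 1/(M² - 1)`; take logarithms,
`log (1+x) ≤ x - x²/2 + x³/3`, `log (1 + 1/M) ≥ 1/M - 1/(2M²) + 1/(3M³) - 1/(4M⁴)`, `log (1 - ζ/M) ≤ - ζ/M`; the sum is at most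
`1/(M(M²-1)) - M/(2(M²-1)²) + M/(3(M²-1)³) - 5/(6M³) + 1/(4M⁴) + (M+1)²/(8M⁶) < 0` (clear denominators, `M = t + 3`, all
coefficients negative; `M = 3`: `-0.0048`). Then `ε₀` by continuity of `ww` at `cend M` (`UPU_cont`-like) and
`ε₀ ≤ 1/(4M⁴)`. -/
def Stmt_RNG : Prop :=
  ∀ M : ℕ, 2 ≤ M → ∃ ε₀ : ℝ, 0 < ε₀ ∧ cend M + ε₀ ≤ 1 - 1 / ((M : ℝ) + 1) ∧
    ∀ c : ℝ, 0 ≤ c → c ≤ cend M + ε₀ → ww M c ^ (M + 1) + ε₀ ≤ (1 - 1 / (M : ℝ)) ^ M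

/-! ### Stability -/

open Classical in
/-- CR4 (copy of `MP_1ce445_lin/COR2.lean`, with the sets `T'` of that proof written out as in `MP_1ce445_fx/CR3.lean`). -/
def Stmt_CR4 : Prop :=
  ∀ (n k R : ℕ) (G : Fin k → SimpleGraph (Fin n)) (s t : ℝ), IsFactorization G →
    0 < s → s ≤ 1 → 1 ≤ s ^ 2 / 30 * n → k ≤ n →
    (R : ℝ) / n + (1 - (s ^ 2 / 30) ^ 2) ^ R ≤ t →
    (∏ j, (gammaT (G j) : ℝ) ≤ Real.exp (-4) * (NN n : ℝ) ^ k) ∨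
    ∃ (A : Finset (Fin k)) (W : Fin n → Fin n → Prop) (Vg : Finset (Fin n)),
      (A.card : ℝ) ≤ 5 / (s ^ 2 / 30) ∧ (1 - s) * n ≤ Vg.card ∧
      (∀ v w, W v w → W w v) ∧
      (∀ v w, W v w → (thk G A ((s ^ 2 / 30) ^ 2) v ∩ thk G A ((s ^ 2 / 30) ^ 2) w).Nonempty) ∧
      (∀ v ∈ Vg, (n : ℝ) - 1 - k - s * n ≤ ((univ.filter (fun w => W v w)).card : ℝ)) ∧
      (∀ v, ((univ.filter (fun w => W v w)).card : ℝ) ≤ (n : ℝ) - 1 - k + A.card) ∧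
      (∀ j ∈ A, (gammaT (G j) : ℝ) ≤
        (1 - ((univ.filter (fun v => j ∈ thk G A ((s ^ 2 / 30) ^ 2) v)).card : ℝ) / n + t) * n) ∧
      ∀ j, gammaT (G j) ≤ NN n

open Classical in
/-- SEC (helper28; copy of `MP_1ce445_plt/SE2.lean`; uses `plt.TN2`): at most `M` singleton elements. -/
def Stmt_SEC : Prop :=
  ∀ M : ℕ, 2 ≤ M → ∀ κ : ℝ, 0 < κ → 4 * (M : ℝ) ^ 2 * κ ≤ 1 → ∃ η : ℝ, 0 < η ∧ η ≤ 1 ∧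
    ∀ (n k : ℕ) (T : Fin n → Finset (Fin k)) (A : Finset (Fin k)) (Vg : Finset (Fin n)),
    0 < n → (∀ v, T v ⊆ A) → (1 - η) * n ≤ Vg.card → (∀ v ∈ Vg, (T v).Nonempty) →
    (A.filter (fun x => ∃ v ∈ Vg, T v = {x})).card ≤ M →
    (1 - 1 / (M : ℝ)) ^ M - η ≤ ∏ x ∈ A, (1 - pT T x) →
    ∃ e : Fin M → Fin k, Function.Injective e ∧ (∀ i, e i ∈ A) ∧
      (∀ i, |pT T (e i) - 1 / M| ≤ κ) ∧
      ((univ.filter (fun v => 2 ≤ (T v).card)).card : ℝ) ≤ κ * n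

/-- SE3 (150 lines; uses `upg.Stmt_HUB` PWM SEC). `η` = the minimum of the `η` of SEC, `ε₁/4`, `ε₀/20`, `1/8`. `V = {v // v ∈ Vg}`,
`q_x = pr (fun v : Vg => T v) x`, `p_x = pT T x ≥ (1 - η) q_x`. `A' = {x ∈ A | T v = {x} for some v ∈ Vg}` is `upg.Sg` of the
restricted system (`T v ⊆ A`). `T v` is nonempty for `v ∈ Vg` (`Sy.low`, `Sy.meet`, `c < 1`), and `p_x ≥ (1 - η) (1 - c)` for `x ∈ A'` (all
`W`-neighbours of a `v` with `T v = {x}` contain `x`). `|A'| ≥ M + 2`: the product is at most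
` (1 - (1-η)(1-c))^(M+2) ≤ (1 - 1/(M+1) + η)^(M+2) ≤ (1-1/M)^M - ε₁`. `|A'| = M + 1`: HUB,
`∏ (1 - q_x) ≤ ww M c ^ (M+1) + √κ₁ ≤ (1-1/M)^M - ε₀ + η`; `∏_A (1 - p_x) ≤ ∏_A (1 - q_x + η q_x) ≤ ∏_A (1 - q_x) + η ∑_A q_x` and
`∑_A q_x ≤ 2 ∑_A p_x ≤ 8`, since `∏_A (1 - p_x) ≥ 1/4 - 1/8` and `1 - p ≤ exp (-p)`. `|A'| ≤ M`: SEC. -/
def Stmt_SE3 : Prop :=
  ∀ M : ℕ, 2 ≤ M → ∀ ε₀ κ : ℝ, 0 < ε₀ → 0 < κ → 4 * (M : ℝ) ^ 2 * κ ≤ 1 → ∃ η : ℝ, 0 < η ∧ η ≤ 1 ∧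
    ∀ (n k : ℕ) (T : Fin n → Finset (Fin k)) (A : Finset (Fin k)) (W : Fin n → Fin n → Prop)
      (Vg : Finset (Fin n)) (c κ₁ : ℝ),
    0 < n → (∀ v, T v ⊆ A) → (1 - η) * n ≤ Vg.card →
    Pool.Agent.Work.MP_1ce445_upg.Sy A (fun v : Vg => T v.1) (fun v w : Vg => W v.1 w.1) M c κ₁ →
    Real.sqrt κ₁ ≤ η → ww M c ^ (M + 1) + ε₀ ≤ (1 - 1 / (M : ℝ)) ^ M →
    (1 - 1 / (M : ℝ)) ^ M - η ≤ ∏ x ∈ A, (1 - pT T x) →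
    ∃ e : Fin M → Fin k, Function.Injective e ∧ (∀ i, e i ∈ A) ∧
      (∀ i, |pT T (e i) - 1 / M| ≤ κ) ∧
      ((univ.filter (fun v => 2 ≤ (T v).card)).card : ℝ) ≤ κ * n

/-- ST3 (200 lines; uses RNG CR4 SE3): copy of `MP_1ce445_plt/ST2.lean` with CR4 and SE3. `ε₀` from RNG; the `u` of that proof also with
`√(10 u) ≤ η`, `3 u ≤ ε₀`, `20 u ≤ 1`; `c = k/n + 1/n + 2u ≤ cend M + ε₀` (`1/n ≤ u`), `κ₁ = 10 u`; `Sy` by `UPU_sys` of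
`MP_1ce445_upg/UPU.lean` (`|A| ≤ 6 u n` for large `n`). -/
def Stmt_ST3 : Prop :=
  ∀ M : ℕ, 2 ≤ M → ∀ θ κ : ℝ, 0 < θ → 0 < κ → ∃ n0 : ℕ, ∀ n k : ℕ, n0 ≤ n →
    Even n → (k : ℝ) / n ≤ cend M →
    ∀ G : Fin k → SimpleGraph (Fin n), IsFactorization G →
    (1 - 1 / (M : ℝ)) ^ M * (n : ℝ) ^ k ≤ ∏ j, (gammaT (G j) : ℝ) →
    ∃ e : Fin M → Fin k, Function.Injective e ∧
      (∀ i, (gammaT (G (e i)) : ℝ) ≤ (1 - 1 / M + κ) * n) ∧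
      (∀ i, ((hi (G (e i)) θ).card : ℝ) ≤ (1 / M + κ) * n) ∧ ((ov G e θ).card : ℝ) ≤ κ * n

/-- SB3 (uses `stm.Stmt_DEG` `stm.Stmt_EMO` ST3): copy of `MP_1ce445_plt/SB2.lean` (`k + n/(3M) ≤ n` from `k/n ≤ 1 - 1/(M+1)`). -/
def Stmt_SB3 : Prop :=
  ∀ M : ℕ, 2 ≤ M → ∀ θ s : ℝ, 0 < θ → 12 * (M : ℝ) ^ 2 * θ ≤ 1 → 0 < s →
    4 * (M : ℝ) * s ≤ 1 → ∃ n0 : ℕ, ∀ n k : ℕ, n0 ≤ n → Even n → 0 ≤ tt n k M →
    (k : ℝ) / n ≤ cend M →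
    ∀ G : Fin k → SimpleGraph (Fin n), IsFactorization G →
    (1 - 1 / (M : ℝ)) ^ M * (n : ℝ) ^ k ≤ ∏ j, (gammaT (G j) : ℝ) →
    ∃ e : Fin M → Fin k, St G e θ s ∧ ∀ i, ((hi (G (e i)) θ).card : ℝ) ≤ (1 / M + s) * n

/-! ### Result -/

/-- UP3 (uses `stm.Stmt_PRR` SB3 `plt.Stmt_ADP`): copy of `MP_1ce445_plt/UPP.lean`; `tau n k M ≤ 1/(M+1) ≤ 2/3`. -/
def Stmt_UP3 : Prop :=
  ∀ M : ℕ, 2 ≤ M → ∀ ε : ℝ, 0 < ε → ∃ n0 : ℕ, ∀ n k : ℕ, n0 ≤ n → Even n → ε ≤ tau n k M →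
    (k : ℝ) / n ≤ cend M →
    (P n k : ℝ) ≤ (n : ℝ) ^ (k - M) *
      (n - n / M + (1 + ε) * (Real.log n / (- Real.log (tau n k M)))) ^ M

/-- UPV (80 lines; uses `plt.Stmt_UPU` UP3). `δ₀ > 0` with ` (1 - 1/M + δ₀/M)^(M+1) + δ₀ ≤ (1 - 1/M)^M` (continuity;
` (1-1/M)^(M+1) < (1-1/M)^M`), `ε' = min ε δ₀`. If `tau ≤ δ₀` then `k/n = 1 - 1/M + tau/M`: UPU for `ε'`. If `tau ≥ δ₀`: UP3 for `ε'`.
The bounds are increasing in `ε` (`0 < tau ≤ 1/3`). -/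
def Stmt_UPV : Prop :=
  ∀ M : ℕ, 2 ≤ M → ∀ ε : ℝ, 0 < ε → ε < 1 → ∃ n0 : ℕ, ∀ n k : ℕ, n0 ≤ n → Even n →
    1 / (n : ℝ) ≤ tau n k M → (k : ℝ) / n ≤ cend M →
    (P n k : ℝ) ≤ (n : ℝ) ^ (k - M) *
      (n - n / M + (1 + ε) * (Real.log n / (- Real.log (tau n k M))) + 1) ^ M

/-- FPV (uses UPV `plt.Stmt_SLU`): copy of `MP_1ce445_plt/FPU.lean` (`tau n k M ≤ 1/(M+1) ≤ 2/3`). -/
def Stmt_FPV : Prop :=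
  ∀ M : ℕ, 2 ≤ M → ∀ ε : ℝ, 0 < ε → ε < 1 → ∃ n0 : ℕ, ∀ n k : ℕ, n0 ≤ n → 2 * M ∣ n →
    (M - 1) * n + M * M ≤ M * k → (k : ℝ) / n ≤ cend M →
    (n : ℝ) ^ (k - M) * (n - n / M + (1 - ε) * (Real.log n / (- Real.log (tau n k M)))) ^ M ≤
      (P n k : ℝ) ∧
    (P n k : ℝ) ≤ (n : ℝ) ^ (k - M) *
      (n - n / M + (1 + ε) * (Real.log n / (- Real.log (tau n k M))) + 1) ^ M

/-- PLV (uses FPV `stm.Stmt_FIR` `stm.Stmt_FI2`): copy of `stmt_PLA` in `MP_1ce445_plt/Final.lean` (`PLA_data`, `PLA_exact` can be used;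
`k < n` from `k/n ≤ cend M < 1`). -/
def Stmt_PLV : Prop :=
  ∀ M r : ℕ, 2 ≤ M → 2 ≤ r → ∀ ε : ℝ, 0 < ε → ε < 1 → ∃ (C δ : ℝ) (n0 : ℕ), 0 < δ ∧
    ∀ n k : ℕ, n0 ≤ n → 2 * M ∣ n → (M - 1) * n + M * M ≤ M * k → (k : ℝ) / n ≤ cend M →
    ∃ R : ℝ, 0 ≤ R ∧ (P n k : ℝ) = (n : ℝ) ^ (k - M) * (n - n / M + R) ^ M ∧
      (1 - ε) * (Real.log n / (- Real.log (tau n k M))) ≤ R ∧
      R ≤ (1 + ε) * (Real.log n / (- Real.log (tau n k M))) + 1 ∧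
      ((n : ℝ) * tau n k M ^ r ≤ δ → (r = 2 ∨ C ≤ (n : ℝ) * tau n k M ^ (r - 1)) → R = r)

end Pool.Agent.Work.MP_1ce445_pln
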